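import Pool.Agent.P.MP_cb63a5_lc.Cub.Bridge

/-! Alternating cycles of cubic bipartite graphs through permutations of the other vertices. -/

namespace Pool.Agent.P.MP_cb63a5_lc.Cub

open Function

variable {V : Type} {G : SimpleGraph V}

/-- A cycle of length `N` whose complement is permuted along edges. -/
def Good (G : SimpleGraph V) (N : ℕ) (f : ℕ → V) : Prop :=
  3 ≤ N ∧ Set.InjOn f {t | t < N} ∧ f N = f 0 ∧ (∀ t < N, G.Adj (f t) (f (t + 1))) ∧
    ∃ σ : V → V, Injective σ ∧ ∀ v, ((∃ t < N, f t = v ∨ f t = σ v) → v = σ v) ∧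
      ((¬ ∃ t < N, f t = v ∨ f t = σ v) → G.Adj v (σ v))

theorem good_of_comb [Fintype V] (h3 : ∀ v, (G.neighborSet v).ncard = 3) (hb : G.IsBipartite)
    {L : ℕ} (h : Comb G L) : ∃ N f, N ≤ L ∧ Good G N f := by
  classical
  obtain ⟨μ, hμ, hmin, N, f, hL, a1, a2, a3, a4, a5⟩ := h
  obtain ⟨c, hc⟩ := exists_colour hb
  obtain ⟨e, _, _, he⟩ := three_pm h3 hc
  obtain ⟨b1, b2⟩ := inv_isM e fun a => (he a).1.1
  have b3 := hmin _ b1
  rw [b2, Nat.le_zero, free, Set.ncard_eq_zero] at b3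
  have b4 : ∀ v, μ v ≠ v := fun v h => (Set.eq_empty_iff_forall_notMem.1 b3) v h
  have b5 : ∀ v, (∃ t < N, f t = v) → ∃ t < N, f t = μ v := by
    rintro _ ⟨t, ht, rfl⟩
    obtain ⟨s, hs, hs'⟩ := a5 t ht
    rcases Sym2.eq_iff.1 hs' with ⟨-, h⟩ | ⟨h, -⟩
    · by_cases e : s + 1 = N
      · exact ⟨0, by omega, by rw [← a3, ← e, h]⟩
      · exact ⟨s + 1, by omega, h⟩
    · exact ⟨s, hs, h⟩
  have b6 : ∀ v, (∃ t < N, f t = μ v) → ∃ t < N, f t = v := fun v h => by
    simpa only [(hμ v).1] using b5 _ h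
  refine ⟨N, f, hL, a1, a2, a3, a4, fun v => if ∃ t < N, f t = v then v else μ v,
    fun u v huv => ?_, fun v => ?_⟩
  · by_cases hu : ∃ t < N, f t = u <;> by_cases hv : ∃ t < N, f t = v <;>
      simp only [hu, hv, if_true, if_false] at huv
    · exact huv
    · exact absurd (b6 v (huv ▸ hu)) hv
    · exact absurd (b6 u (huv ▸ hv)) hu
    · rw [← (hμ u).1, huv, (hμ v).1]
  · by_cases hv : ∃ t < N, f t = v <;> simp only [hv, if_true, if_false]
    · exact ⟨fun _ => trivial, fun h => absurd (hv.imp fun _ h => ⟨h.1, Or.inl h.2⟩) h⟩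
    · refine ⟨fun ⟨t, ht, h⟩ => ?_, fun _ => (hμ v).2 (b4 v)⟩
      exact absurd (h.elim (fun h => ⟨t, ht, h⟩) fun h => b6 v ⟨t, ht, h⟩) hv

theorem comb_of_good [Fintype V] (hb : G.IsBipartite) {N L : ℕ} {f : ℕ → V} (hL : N ≤ L)
    (h : Good G N f) : Comb G L := by
  classical
  obtain ⟨a1, a2, a3, a4, σ0, hσ, hσ'⟩ := h
  obtain ⟨c, hc⟩ := exists_colour hb
  have par : ∀ t ≤ N, c (f t) = c (f 0) ↔ t % 2 = 0 := by
    intro t ht
    induction t with
    | zero => simp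
    | succ t ih =>
      have h1 := hc _ _ (a4 t ht)
      have h2 := ih (by omega)
      have h3 : (t + 1) % 2 = 0 ↔ ¬ t % 2 = 0 := by omega
      rw [h3, ← h2]
      revert h1
      cases c (f t) <;> cases c (f (t + 1)) <;> cases c (f 0) <;> simp
  have hN : N % 2 = 0 := (par N le_rfl).1 (by rw [a3])
  let σ := Equiv.ofBijective σ0 hσ.bijective_of_finite
  have s1 : ∀ v, (¬ ∃ t < N, f t = v) → (¬ ∃ t < N, f t = σ v) ∧ G.Adj v (σ v) := fun v hv => by
    have : ¬ ∃ t < N, f t = σ v := fun ⟨t, ht, h⟩ =>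
      hv ⟨t, ht, h.trans ((hσ' v).1 ⟨t, ht, Or.inr h⟩).symm⟩
    exact ⟨this, (hσ' v).2 fun ⟨t, ht, h⟩ => h.elim (fun h => hv ⟨t, ht, h⟩)
      fun h => this ⟨t, ht, h⟩⟩
  have s2 : ∀ v, (¬ ∃ t < N, f t = v) →
      (¬ ∃ t < N, f t = σ.symm v) ∧ G.Adj v (σ.symm v) := fun v hv => by
    have : ¬ ∃ t < N, f t = σ.symm v := fun ⟨t, ht, h⟩ => by
      have := (hσ' _).1 ⟨t, ht, Or.inl h⟩
      exact hv ⟨t, ht, h.trans (this.trans (σ.apply_symm_apply v))⟩
    exact ⟨this, by simpa using (s1 _ this).2.symm⟩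
  let p : ℕ → ℕ := fun i => if i % 2 = 0 then i + 1 else i - 1
  let μ : V → V := fun v =>
    if h : ∃ t < N, f t = v then f (p h.choose) else if c v then σ v else σ.symm v
  have m1 : ∀ t < N, μ (f t) = f (p t) := fun t ht => by
    have h : ∃ s < N, f s = f t := ⟨t, ht, rfl⟩
    simp only [μ]
    rw [dif_pos h, a2 h.choose_spec.1 ht h.choose_spec.2]
  have p1 : ∀ t < N, p t < N ∧ p (p t) = t := fun t ht => by
    simp only [p]; split_ifs <;> omega
  have key : ∀ v, μ (μ v) = v ∧ G.Adj v (μ v) := fun v => by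
    by_cases hv : ∃ t < N, f t = v
    · obtain ⟨t, ht, rfl⟩ := hv
      rw [m1 t ht, m1 _ (p1 t ht).1, (p1 t ht).2]
      refine ⟨rfl, ?_⟩
      simp only [p]
      split_ifs with h
      · exact a4 t ht
      · have := (a4 (t - 1) (by omega)).symm
        rwa [show t - 1 + 1 = t by omega] at this
    · have e : μ v = if c v then σ v else σ.symm v := dif_neg hv
      cases h : c v
      · have := hc _ _ (s2 v hv).2
        rw [e, h, if_neg (by simp)]
        refine ⟨?_, (s2 v hv).2⟩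
        simp only [μ]
        rw [dif_neg (s2 v hv).1, if_pos (by simp_all)]; simp
      · have := hc _ _ (s1 v hv).2
        rw [e, h, if_pos rfl]
        refine ⟨?_, (s1 v hv).2⟩
        simp only [μ]
        rw [dif_neg (s1 v hv).1, if_neg (by simp_all)]; simp
  have hf : free μ = 0 := by
    have : {v | μ v = v} = ∅ := Set.eq_empty_of_forall_notMem fun v h => (key v).2.ne' h
    rw [free, this, Set.ncard_empty]
  refine ⟨μ, fun v => ⟨(key v).1, fun _ => (key v).2⟩, fun _ _ => by omega, N, f, hL, a1, a2, a3,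
    a4, fun t ht => ?_⟩
  rw [m1 t ht]
  simp only [p]
  split_ifs with h
  · exact ⟨t, ht, rfl⟩
  · exact ⟨t - 1, by omega, by rw [show t - 1 + 1 = t by omega, Sym2.eq_swap]⟩

/-- The search may be restricted to cycles of logarithmic length. -/
theorem yes_iff_good [Fintype V] [Nonempty V] (h3 : ∀ v, (G.neighborSet v).ncard = 3)
    (hb : G.IsBipartite) {t : ℕ} (hN : Fintype.card V ^ 2 < 2 ^ t) (L : ℕ) :
    HasShortAltCycle G L ↔ ∃ N f, N ≤ L ∧ N ≤ 2000 * t ∧ Good G N f := by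
  rw [yes_iff_comb]
  refine ⟨fun h => ?_, fun ⟨N, f, h1, _, h2⟩ => comb_of_good hb h1 h2⟩
  rcases le_total L (2000 * t) with hL | hL
  · obtain ⟨N, f, h1, h2⟩ := good_of_comb h3 hb h
    exact ⟨N, f, h1, h1.trans hL, h2⟩
  · obtain ⟨N, f, h1, h2⟩ := good_of_comb h3 hb (comb_log h3 hb hN)
    exact ⟨N, f, h1.trans hL, h1, h2⟩

end Pool.Agent.P.MP_cb63a5_lc.Cub
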