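import Pool.Agent.P.MP_cb63a5_lc.Cub.Match
import Pool.Agent.P.MP_cb63a5_lc.Cub.Char
import Pool.Agent.Lib.NP.Bin

/-! Polynomial-time tests: bipartiteness, and the list of all walks of logarithmic length. -/

namespace Pool.Agent.P.MP_cb63a5_lc.Cub

open Pool.Agent.Lib.NP Polynomial Function

def bstep (A : Mat) (S : List ℕ) : List ℕ :=
  (List.range (2 * A.length)).filter fun x =>
    S.contains x || S.any fun y => ent A (y / 2) (x / 2) && (y % 2 != x % 2)

def bip (A : Mat) : Bool :=
  (List.range A.length).all fun i => !((bstep A)^[2 * A.length + 1] [2 * i]).contains (2 * i + 1)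

theorem mem_bstep {A : Mat} {S : List ℕ} {x : ℕ} : x ∈ bstep A S ↔ x < 2 * A.length ∧
    (x ∈ S ∨ ∃ y ∈ S, ent A (y / 2) (x / 2) = true ∧ y % 2 ≠ x % 2) := by
  simp [bstep]

theorem bip_iff {n : ℕ} (G : SimpleGraph (Fin n)) : bip (adjMatrix G) = true ↔ G.IsBipartite := by
  classical
  simp only [bip, length_adjMatrix, List.all_eq_true, List.mem_range, Bool.not_eq_true',
    ← Bool.not_eq_true, List.contains_iff_mem]
  constructor
  · intro h
    refine SimpleGraph.two_colorable_iff_forall_loop_even.2 fun u w => ?_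
    obtain ⟨h1, h2⟩ := iter_closed (bstep (adjMatrix G)) (fun S => 2 * u.1 ∈ S)
      (fun S => ∀ y ∈ S, ∀ x < 2 * n, ent (adjMatrix G) (y / 2) (x / 2) = true →
        y % 2 ≠ x % 2 → x ∈ S)
      (fun S => ((Finset.range (2 * n)).filter (· ∈ S)).card) (2 * n) [2 * u.1] (by simp)
      (fun S hS => mem_bstep.2 ⟨by rw [length_adjMatrix]; omega, Or.inl hS⟩)
      (fun S => (Finset.card_filter_le _ _).trans (by simp)) (fun S hS => by
        push Not at hS
        obtain ⟨y, hy, x, hx, a1, a2, a3⟩ := hS
        refine Finset.card_lt_card ⟨fun r hr => ?_, fun hc => ?_⟩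
        · simp only [Finset.mem_filter, Finset.mem_range, mem_bstep, length_adjMatrix] at hr ⊢
          exact ⟨hr.1, hr.1, Or.inl hr.2⟩
        · have := hc (x := x) (by
            simp only [Finset.mem_filter, Finset.mem_range, mem_bstep, length_adjMatrix]
            exact ⟨hx, hx, Or.inr ⟨y, hy, a1, a2⟩⟩)
          exact a3 (Finset.mem_filter.1 this).2)
      (fun S hS y hy x hx a1 a2 => by
        rw [mem_bstep, length_adjMatrix] at hy ⊢
        refine ⟨hx, Or.inl (hS y ?_ x hx a1 a2)⟩
        rcases hy.2 with h | ⟨z, hz, b1, b2⟩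
        exacts [h, hS z hz y hy.1 b1 b2])
    have h3 := h u u.2
    generalize (bstep (adjMatrix G))^[2 * n + 1] [2 * u.1] = S at h1 h2 h3
    have key : ∀ (a b : Fin n) (w : G.Walk a b) (p : ℕ), p < 2 → 2 * a.1 + p ∈ S →
        2 * b.1 + (p + w.length) % 2 ∈ S := by
      intro a b w
      induction w with
      | nil => intro p hp h; simpa [Nat.mod_eq_of_lt hp] using h
      | @cons a b c hab w ih =>
        intro p hp h
        have := ih (1 - p) (by omega) (h2 _ h _ (by omega) (by
          rw [show (2 * a.1 + p) / 2 = a.1 by omega, show (2 * b.1 + (1 - p)) / 2 = b.1 by omega,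
            ent_adjMatrix]
          exact hab) (by omega))
        rwa [SimpleGraph.Walk.length_cons,
          show (p + (w.length + 1)) % 2 = (1 - p + w.length) % 2 by omega]
    have := key u u w 0 (by omega) h1
    rw [Nat.even_iff]
    by_contra hc
    rw [show (0 + w.length) % 2 = 1 by omega] at this
    exact h3 this
  · intro hb i hi h
    obtain ⟨c, hc⟩ := exists_colour hb
    have key : ∀ k, ∀ x ∈ (bstep (adjMatrix G))^[k] [2 * i],
        ∃ h : x / 2 < n, (c ⟨x / 2, h⟩ = c ⟨i, hi⟩ ↔ x % 2 = 0) := by
      intro k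
      induction k with
      | zero =>
        intro x hx
        obtain rfl : x = 2 * i := by simpa using hx
        exact ⟨by omega, by simp⟩
      | succ k ih =>
        intro x hx
        rw [iterate_succ_apply', mem_bstep, length_adjMatrix] at hx
        rcases hx.2 with h | ⟨y, hy, a1, a2⟩
        · exact ih x h
        · obtain ⟨b1, b2⟩ := ih y hy
          refine ⟨by omega, ?_⟩
          have b3 := hc _ _ ((ent_adjMatrix G ⟨y / 2, b1⟩ ⟨x / 2, by omega⟩).1 a1)
          rw [show x % 2 = 0 ↔ ¬ y % 2 = 0 by omega, ← b2]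
          revert b3
          cases c ⟨y / 2, b1⟩ <;> cases c ⟨x / 2, _⟩ <;> cases c ⟨i, hi⟩ <;> simp
    obtain ⟨a1, a2⟩ := key _ _ h
    have : (2 * i + 1) % 2 = 0 := a2.1 (by congr 2; omega)
    omega

theorem pt_bip : PT bip := by
  let g : Mat × List ℕ → Mat × List ℕ := fun p => (p.1, bstep p.1 p.2)
  have hg : PT g := by
    unfold g bstep ent
    fun_prop
  have it : ∀ A S i, g^[i] (A, S) = (A, (bstep A)^[i] S) := fun A S i => by
    induction i with
    | zero => rfl
    | succ i ih => rw [iterate_succ_apply', iterate_succ_apply', ih]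
  have h1 := PT.iterate (n := fun p : Mat × ℕ => 2 * p.1.length + 1)
    (s0 := fun p => (p.1, [2 * p.2])) hg (by fun_prop) (by fun_prop)
    (2 * X + 1 + (2 * X + 1) * (2 * (2 * X) + 1)) (by
      rintro ⟨A, j⟩ i -
      rw [it]
      have b1 := length_le_sz A
      simp only [sz_prod, sz_nat, eval_add, eval_mul, eval_X, eval_one, eval_ofNat]
      generalize hs : 2 * sz A + 1 + j = s
      have b2 : ((bstep A)^[i] [2 * j]).length ≤ 2 * s + 1 ∧
          ∀ x ∈ (bstep A)^[i] [2 * j], sz x ≤ 2 * s := by
        cases i with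
        | zero => simp; omega
        | succ i =>
          rw [iterate_succ_apply']
          exact ⟨(List.length_filter_le _ _).trans (by simp; omega),
            fun x hx => by have := (mem_bstep.1 hx).1; simp; omega⟩
      have b3 := (sz_list_le _ _ b2.2).trans (Nat.mul_le_mul_right _ b2.1)
      omega)
  have h2 : PT (fun p : Mat × ℕ => (bstep p.1)^[2 * p.1.length + 1] [2 * p.2]) :=
    h1.snd.congr fun p => by rw [it]
  exact PT.all (f := fun (A : Mat) (i : ℕ) =>
    !((bstep A)^[2 * A.length + 1] [2 * i]).contains (2 * i + 1))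
    (PT.not (PT.contains (by fun_prop) h2)) (by fun_prop)

def nbrs (A : Mat) (i : ℕ) : List ℕ := (List.range A.length).filter fun j => ent A i j

def wstep (A : Mat) (W : List (List ℕ)) : List (List ℕ) :=
  W.flatMap fun w => w :: ((nbrs A (w.getD (w.length - 1) 0)).take 3).map fun j => w ++ [j]

/-- All walks with at most `k` edges. -/
def walks (A : Mat) (k : ℕ) : List (List ℕ) :=
  (wstep A)^[k] ((List.range A.length).map fun i => [i])

theorem mem_walks {A : Mat} (hA : ∀ i < A.length, (nbrs A i).length ≤ 3) {f : ℕ → ℕ} (k : ℕ) :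
    ∀ j ≤ k, (∀ t ≤ j, f t < A.length) → (∀ t < j, ent A (f t) (f (t + 1)) = true) →
      (List.range (j + 1)).map f ∈ walks A k := by
  induction k with
  | zero =>
    intro j hj h _
    obtain rfl := Nat.le_zero.1 hj
    exact List.mem_map.2 ⟨f 0, List.mem_range.2 (h 0 le_rfl), rfl⟩
  | succ k ih =>
    intro j hj h1 h2
    rw [walks, iterate_succ_apply', wstep, List.mem_flatMap]
    rcases hj.lt_or_eq with hj | rfl
    · exact ⟨_, ih j (by omega) h1 h2, List.mem_cons_self⟩
    · refine ⟨_, ih k le_rfl (fun t ht => h1 t (by omega)) fun t ht => h2 t (by omega),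
        List.mem_cons_of_mem _ (List.mem_map.2 ⟨f (k + 1), ?_, ?_⟩)⟩
      · rw [List.length_map, List.length_range, Nat.add_sub_cancel,
          getD_map_range _ (Nat.lt_succ_self k), List.take_of_length_le (hA _ (h1 k (by omega)))]
        simp [nbrs, h1 (k + 1) le_rfl, h2 k (by omega)]
      · rw [List.range_succ (n := k + 1)]; simp

theorem walks_size (A : Mat) (k : ℕ) : (walks A k).length ≤ A.length * 4 ^ k ∧
    ∀ w ∈ walks A k, sz w ≤ (k + 1) * (2 * A.length + 1) := by
  induction k with
  | zero =>
    refine ⟨by simp [walks], fun w hw => ?_⟩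
    obtain ⟨i, hi, rfl⟩ := List.mem_map.1 hw
    have := List.mem_range.1 hi
    simp; omega
  | succ k ih =>
    rw [walks, iterate_succ_apply']
    change (wstep A (walks A k)).length ≤ _ ∧ ∀ w ∈ wstep A (walks A k), _
    generalize walks A k = W at ih
    refine ⟨?_, fun w hw => ?_⟩
    · have : (wstep A W).length ≤ W.length * 4 := by
        clear ih
        induction W with
        | nil => simp [wstep]
        | cons w W ih =>
          simp only [wstep, List.flatMap_cons, List.length_append, List.length_cons,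
            List.length_map, List.length_take] at ih ⊢
          omega
      rw [pow_succ, ← mul_assoc]
      omega
    · obtain ⟨w', h1, h2⟩ := List.mem_flatMap.1 hw
      have h3 := ih.2 w' h1
      rw [add_mul (k + 1)]
      rcases List.mem_cons.1 h2 with rfl | h2
      · omega
      · obtain ⟨j, hj, rfl⟩ := List.mem_map.1 h2
        have := List.mem_range.1 (List.mem_filter.1 (List.mem_of_mem_take hj)).1
        simp; omega

theorem pt_walks (C : ℕ) : PT (fun A : Mat => walks A (C * (nb A.length).length)) := by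
  let g : Mat × List (List ℕ) → Mat × List (List ℕ) := fun p => (p.1, wstep p.1 p.2)
  have hg : PT g := by
    unfold g wstep nbrs ent
    fun_prop
  have it : ∀ A S i, g^[i] (A, S) = (A, (wstep A)^[i] S) := fun A S i => by
    induction i with
    | zero => rfl
    | succ i ih => rw [iterate_succ_apply', iterate_succ_apply', ih]
  refine (PT.iterate (n := fun A : Mat => C * (nb A.length).length)
    (s0 := fun A => (A, (List.range A.length).map fun i => [i])) hg (by fun_prop) (by fun_prop)
    (2 * X + 1 + X * (2 * X + 1) ^ (2 * C) * (2 * ((Polynomial.C C * X + 1) * (2 * X + 1)) + 1))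
    fun A i hi => ?_).snd.congr fun A => by rw [it]; rfl
  rw [it]
  obtain ⟨a1, a2⟩ := walks_size A i
  have b1 := length_le_sz A
  have b2 : (nb A.length).length ≤ A.length := length_nb_le _ _ Nat.lt_two_pow_self
  have b3 : 2 ^ (nb A.length).length ≤ 2 * sz A + 1 := by
    cases e : (nb A.length).length with
    | zero => omega
    | succ l =>
      have : ¬ A.length < 2 ^ l := fun h => by have := length_nb_le _ _ h; omega
      rw [pow_succ]; omega
  have b4 : 4 ^ i ≤ (2 * sz A + 1) ^ (2 * C) :=
    calc 4 ^ i ≤ 4 ^ (C * (nb A.length).length) := Nat.pow_le_pow_right (by norm_num) hi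
      _ = (2 ^ (nb A.length).length) ^ (2 * C) := by
        rw [show 4 = 2 ^ 2 from rfl, ← pow_mul, ← pow_mul]; congr 1; ring
      _ ≤ _ := Nat.pow_le_pow_left b3 _
  have b5 : i ≤ C * sz A := hi.trans (Nat.mul_le_mul_left _ (by omega))
  have b6 := (sz_list_le _ ((C * sz A + 1) * (2 * sz A + 1)) fun w hw =>
    (a2 w hw).trans (Nat.mul_le_mul (by omega) (by omega))).trans
    (Nat.mul_le_mul_right _ (a1.trans (Nat.mul_le_mul b1 b4)))
  simp only [sz_prod, eval_add, eval_mul, eval_X, eval_one, eval_ofNat, eval_pow, eval_C]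
  exact Nat.add_le_add_left b6 _

end Pool.Agent.P.MP_cb63a5_lc.Cub
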