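import Pool.Agent.P.MP_cb63a5_lc.Cub.Short

/-! Balls inside a minimal set with few leaving arcs. -/

namespace Pool.Agent.P.MP_cb63a5_lc.Cub

open Finset Function

variable {V : Type} [DecidableEq V] {α β : Equiv.Perm V}

def grow (α β : Equiv.Perm V) (Z S : Finset V) : Finset V :=
  S ∪ Z.filter fun y => α⁻¹ y ∈ S ∨ β⁻¹ y ∈ S

/-- The vertices reached from `v` by at most `j` arcs inside `Z`. -/
def ball (α β : Equiv.Perm V) (Z : Finset V) (v : V) (j : ℕ) : Finset V := (grow α β Z)^[j] {v}

theorem ball_succ (Z : Finset V) (v : V) (j : ℕ) :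
    ball α β Z v (j + 1) = grow α β Z (ball α β Z v j) := iterate_succ_apply' _ _ _

theorem mem_grow {Z S : Finset V} {y : V} :
    y ∈ grow α β Z S ↔ y ∈ S ∨ y ∈ Z ∧ ∃ x ∈ S, E α β x y := by
  simp only [grow, mem_union, mem_filter, E]
  refine or_congr_right (and_congr_right fun _ => ⟨?_, ?_⟩)
  · rintro (h | h)
    exacts [⟨_, h, Or.inl (by simp)⟩, ⟨_, h, Or.inr (by simp)⟩]
  · rintro ⟨x, hx, rfl | rfl⟩
    exacts [Or.inl (by simpa using hx), Or.inr (by simpa using hx)]

theorem ball_ind {Z : Finset V} {v : V} (P : ℕ → V → Prop) (h0 : P 0 v)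
    (h1 : ∀ j y, P j y → P (j + 1) y) (h2 : ∀ j x y, P j x → E α β x y → y ∈ Z → P (j + 1) y)
    (j : ℕ) : ∀ y ∈ ball α β Z v j, P j y := by
  induction j with
  | zero => intro y hy; rwa [Finset.mem_singleton.1 hy]
  | succ j ih =>
    intro y hy
    rw [ball_succ, mem_grow] at hy
    rcases hy with hy | ⟨hy, x, hx, hxy⟩
    exacts [h1 _ _ (ih y hy), h2 _ _ _ (ih x hx) hxy hy]

theorem ball_subset {Z : Finset V} {v : V} (hv : v ∈ Z) (j : ℕ) : ball α β Z v j ⊆ Z :=
  ball_ind (fun _ y => y ∈ Z) hv (fun _ _ h => h) (fun _ _ _ _ _ h => h) j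

theorem ball_lnk {Z : Finset V} {v : V} (j : ℕ) : ∀ y ∈ ball α β Z v j, Lnk α β j v y :=
  ball_ind (fun j y => Lnk α β j v y) (Lnk.refl _) (fun _ _ h => h.mono (by omega))
    (fun _ _ _ h h' _ => h.trans (Lnk.single h')) j

theorem ball_lnk_inv {Z : Finset V} {v : V} (j : ℕ) :
    ∀ y ∈ ball α⁻¹ β⁻¹ Z v j, Lnk α β j y v :=
  ball_ind (fun j y => Lnk α β j y v) (Lnk.refl _) (fun _ _ h => h.mono (by omega))
    (fun _ _ _ h h' _ => ((Lnk.single (E_inv.1 h')).trans h).mono (by omega)) j

theorem ball_mono (Z : Finset V) (v : V) : Monotone (ball α β Z v) :=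
  monotone_nat_of_le_succ fun j => by rw [ball_succ]; exact subset_union_left

theorem out_le_grow {Z S : Finset V} (h : S ⊆ Z) :
    out α β S + 2 * S.card ≤ out α β Z + 2 * (grow α β Z S).card := by
  have key : ∀ a : Equiv.Perm V, (∀ x, E α β x (a x)) →
      o1 a S ≤ o1 a Z + (grow α β Z S \ S).card := fun a ha => by
    rw [← Finset.card_image_of_injective (grow α β Z S \ S) a⁻¹.injective]
    refine (Finset.card_le_card fun v hv => ?_).trans (card_union_le _ _)
    simp only [mem_filter, mem_union, mem_image, mem_sdiff, mem_grow] at hv ⊢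
    by_cases hz : a v ∈ Z
    · exact Or.inr ⟨a v, ⟨Or.inr ⟨hz, v, hv.1, ha v⟩, hv.2⟩, by simp⟩
    · exact Or.inl ⟨h hv.1, hz⟩
  have h1 := key α fun _ => Or.inl rfl
  have h2 := key β fun _ => Or.inr rfl
  have h3 := Finset.card_sdiff_add_card_eq_card (show S ⊆ grow α β Z S from subset_union_left)
  unfold out
  omega

/-- `Z` is minimal among the large sets with few leaving arcs. -/
structure Min (α β : Equiv.Perm V) (s Q M : ℕ) (Z : Finset V) : Prop where
  le : Q * out α β Z + min Z.card M ≤ 3 * M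
  mn : ∀ S ⊂ Z, s ≤ S.card → 3 * M < Q * out α β S + min S.card M

theorem Min.inv {s Q M : ℕ} {Z : Finset V} (H : Min α β s Q M Z) : Min α⁻¹ β⁻¹ s Q M Z :=
  ⟨by rw [out_inv]; exact H.le, fun S h1 h2 => by rw [out_inv]; exact H.mn S h1 h2⟩

theorem Min.out_lt {s Q M : ℕ} {Z : Finset V} (H : Min α β s Q M Z) {S : Finset V} (h1 : S ⊂ Z)
    (h2 : s ≤ S.card) : out α β Z < out α β S := by
  have a1 := H.le
  have a2 := H.mn S h1 h2
  have a3 := min_le_min_right M (Finset.card_le_card h1.1)
  exact Nat.lt_of_mul_lt_mul_left (a := Q) (by omega)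

theorem Min.core {s Q M : ℕ} {Z : Finset V} (H : Min α β s Q M Z) (hs : 0 < s)
    (hZ : 2 * s ≤ Z.card) :
    ∃ C : Finset V, C.card < s ∧ ∀ v ∈ Z, v ∉ C → s ≤ (ball α β Z v s).card := by
  obtain ⟨C, hC, hmax⟩ := Finset.exists_max_image
    (Z.powerset.filter fun S => S.card < s ∧ grow α β Z S ⊆ S) Finset.card
    ⟨∅, by simp [hs, grow]⟩
  simp only [mem_filter, mem_powerset] at hC hmax
  refine ⟨C, hC.2.1, fun v hv hvC => ?_⟩
  by_contra hc
  have : ∃ j < s, grow α β Z (ball α β Z v j) ⊆ ball α β Z v j := by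
    by_contra h
    push Not at h
    have : ∀ j ≤ s, j ≤ (ball α β Z v j).card := by
      intro j hj
      induction j with
      | zero => omega
      | succ j ih =>
        have := Finset.card_lt_card (s := ball α β Z v j) (t := grow α β Z (ball α β Z v j))
          ⟨subset_union_left, h j (by omega)⟩
        have := ih (by omega)
        rw [ball_succ]; omega
    exact hc (this s le_rfl)
  obtain ⟨j, hj, hcl⟩ := this
  have b1 := Finset.card_le_card (ball_mono (α := α) (β := β) Z v hj.le)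
  have b2 : v ∈ ball α β Z v j := ball_mono Z v (Nat.zero_le j) (mem_singleton_self v)
  have b3 : C ∪ ball α β Z v j ⊆ Z := union_subset hC.1 (ball_subset hv j)
  have b4 : grow α β Z (C ∪ ball α β Z v j) ⊆ C ∪ ball α β Z v j := fun y hy => by
    rw [mem_grow] at hy
    rcases hy with hy | ⟨hy, x, hx, hxy⟩
    · exact hy
    · rcases mem_union.1 hx with hx | hx
      · exact mem_union_left _ (hC.2.2 (mem_grow.2 (Or.inr ⟨hy, x, hx, hxy⟩)))
      · exact mem_union_right _ (hcl (mem_grow.2 (Or.inr ⟨hy, x, hx, hxy⟩)))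
  have b5 : C.card < (C ∪ ball α β Z v j).card :=
    Finset.card_lt_card ⟨subset_union_left, fun h => hvC (h (mem_union_right _ b2))⟩
  have b6 := card_union_le C (ball α β Z v j)
  have b7 : s ≤ (C ∪ ball α β Z v j).card := by
    by_contra h
    have := hmax _ ⟨b3, by omega, b4⟩
    omega
  have b8 := H.out_lt ⟨b3, fun h => by have := Finset.card_le_card h; omega⟩ b7
  have b9 := out_le_grow (α := α) (β := β) b3
  have := Finset.card_le_card b4
  omega

theorem Min.half {s Q M : ℕ} {Z : Finset V} (H : Min α β s Q M Z) (hQ : 0 < Q) (hM : Z.card ≤ M)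
    (h2 : 2 ≤ Z.card) {v : V} (hv : v ∈ Z) (hb : s ≤ (ball α β Z v s).card) :
    Z.card + 2 ≤ 2 * (ball α β Z v (s + 4 * Q)).card := by
  by_contra hc
  have key : ∀ i ≤ 4 * Q, i * Z.card ≤ 4 * (Q * (ball α β Z v (s + i)).card) := by
    intro i hi
    induction i with
    | zero => simp
    | succ i ih =>
      have a0 := ih (by omega)
      have a1 := Finset.card_le_card (ball_mono (α := α) (β := β) Z v
        (show s + i ≤ s + 4 * Q by omega))
      have a2 := Finset.card_le_card (ball_mono (α := α) (β := β) Z v (show s ≤ s + i by omega))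
      have a3 := ball_subset (α := α) (β := β) hv (s + i)
      have a4 := H.mn _ ⟨a3, fun h => by have := Finset.card_le_card h; omega⟩ (hb.trans a2)
      have a5 := H.le
      have a6 := Nat.mul_le_mul_left Q (out_le_grow (α := α) (β := β) a3)
      rw [← ball_succ, mul_add, mul_add, mul_left_comm, mul_left_comm Q] at a6
      rw [min_eq_left hM] at a5
      rw [← add_assoc, add_mul]
      omega
  have := key _ le_rfl
  rw [mul_assoc] at this
  have := Nat.le_of_mul_le_mul_left (Nat.le_of_mul_le_mul_left this (by norm_num)) hQ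
  omega

theorem out_split (Z S : Finset V) :
    out α β (Z ∩ S) + out α β (Z \ S) ≤ out α β Z + 2 * out α β S := by
  have key : ∀ a : Equiv.Perm V, o1 a (Z ∩ S) + o1 a (Z \ S) ≤ o1 a Z + 2 * o1 a S := fun a => by
    have h0 := Finset.card_filter_add_card_filter_not (s := Z.filter fun v => a v ∉ Z) (· ∈ S)
    have h1 : o1 a (Z ∩ S) ≤ ((Z.filter fun v => a v ∉ Z).filter (· ∈ S)).card + o1 a S := by
      refine (Finset.card_le_card fun v hv => ?_).trans (card_union_le _ _)
      simp only [mem_filter, mem_union, mem_inter] at hv ⊢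
      tauto
    have h2 : o1 a (Z \ S) ≤ ((Z.filter fun v => a v ∉ Z).filter (· ∉ S)).card + o1 a⁻¹ S := by
      unfold o1
      rw [← Finset.card_image_of_injective (S.filter fun v => a⁻¹ v ∉ S) a⁻¹.injective]
      refine (Finset.card_le_card fun v hv => ?_).trans (card_union_le _ _)
      simp only [mem_filter, mem_union, mem_sdiff, mem_image] at hv ⊢
      by_cases hz : a v ∈ Z
      · exact Or.inr ⟨a v, ⟨by tauto, by simpa using hv.1.2⟩, by simp⟩
      · tauto
    rw [o1_inv] at h2
    unfold o1 at *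
    omega
  have h1 := key α
  have h2 := key β
  unfold out
  omega

end Pool.Agent.P.MP_cb63a5_lc.Cub
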