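import Pool.Agent.P.MP_cb63a5_lc.Cub.Main
import Pool.Agent.P.MP_cb63a5_lc.Comb

/-! Cubic bipartite graphs have an alternating cycle of logarithmic length. -/

namespace Pool.Agent.P.MP_cb63a5_lc.Cub

open Finset Function

theorem exists_sup {ρ γ : Type} [Fintype ρ] [Fintype γ] [DecidableEq ρ] [DecidableEq γ]
    (A : ρ → γ → ℕ) {k : ℕ} (hk : 0 < k) (h1 : ∀ r, ∑ c, A r c = k) (h2 : ∀ c, ∑ r, A r c = k) :
    ∃ e, Sup A e := by
  obtain ⟨f, hf, hf'⟩ := (Finset.all_card_le_biUnion_card_iff_exists_injective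
    fun r => univ.filter fun c => 0 < A r c).1 fun s => by
      refine Nat.le_of_mul_le_mul_right ?_ hk
      calc s.card * k = ∑ r ∈ s, ∑ c, A r c := by simp [h1]
        _ = ∑ r ∈ s, ∑ c ∈ s.biUnion fun r => univ.filter fun c => 0 < A r c, A r c := by
          refine sum_congr rfl fun r hr => (Finset.sum_subset (subset_univ _) fun c _ hc => ?_).symm
          by_contra h
          exact hc (mem_biUnion.2 ⟨r, hr, by simpa using Nat.pos_of_ne_zero h⟩)
        _ ≤ ∑ r, ∑ c ∈ s.biUnion fun r => univ.filter fun c => 0 < A r c, A r c :=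
          Finset.sum_le_sum_of_subset (subset_univ _)
        _ = _ := by rw [Finset.sum_comm]; simp [h2]
  have hc : Fintype.card ρ = Fintype.card γ := by
    have := Finset.sum_comm (s := univ) (t := univ) (f := A)
    simp only [h1, h2, sum_const, card_univ, smul_eq_mul] at this
    exact Nat.eq_of_mul_eq_mul_right hk this
  exact ⟨Equiv.ofBijective f ((Fintype.bijective_iff_injective_and_card f).2 ⟨hf, hc⟩),
    fun r => by simpa using hf' r⟩

theorem sub_perm {ρ γ : Type} [Fintype ρ] [Fintype γ] [DecidableEq ρ] [DecidableEq γ]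
    {A : ρ → γ → ℕ} {k : ℕ} (h1 : ∀ r, ∑ c, A r c = k + 1) (h2 : ∀ c, ∑ r, A r c = k + 1)
    {e : ρ ≃ γ} (he : Sup A e) :
    (∀ r, ∑ c, (A r c - if e r = c then 1 else 0) = k) ∧
      ∀ c, ∑ r, (A r c - if e r = c then 1 else 0) = k := by
  have key : ∀ r c, (A r c - if e r = c then 1 else 0) + (if e r = c then 1 else 0) = A r c :=
    fun r c => by
      split_ifs with h
      · have := he r; rw [h] at this; omega
      · rfl
  refine ⟨fun r => ?_, fun c => ?_⟩
  · have := Finset.sum_congr (rfl : (univ : Finset γ) = univ) fun c _ => key r c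
    rw [sum_add_distrib, h1] at this
    simpa using this
  · have := Finset.sum_congr (rfl : (univ : Finset ρ) = univ) fun r _ => key r c
    rw [sum_add_distrib, h2, Equiv.sum_comp e fun x => if x = c then 1 else 0] at this
    simpa using this

variable {V : Type} {G : SimpleGraph V} {c : V → Bool}

theorem sum_adj [Fintype V] [DecidableRel G.Adj] (h3 : ∀ v, (G.neighborSet v).ncard = 3)
    (p : V → Prop) [DecidablePred p] (v : V)
    (hp : ∀ w, G.Adj v w → p w) : ∑ w : {w // p w}, (if G.Adj v w then 1 else 0) = 3 := by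
  rw [← h3 v, ← Finset.card_filter, ← Set.ncard_coe_finset,
    ← Set.ncard_image_of_injective _ Subtype.val_injective]
  congr 1
  ext w
  simpa using hp w

/-- The involution of a bijection between the two colour classes. -/
def inv (c : V → Bool) (e : {v // c v = true} ≃ {v // ¬ c v = true}) (v : V) : V :=
  if h : c v = true then e ⟨v, h⟩ else e.symm ⟨v, h⟩

theorem inv_left (e : {v // c v = true} ≃ {v // ¬ c v = true}) (a : {v // c v = true}) :
    inv c e a = e a := dif_pos a.2

theorem inv_right (e : {v // c v = true} ≃ {v // ¬ c v = true}) (a : {v // c v = true}) :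
    inv c e (e a) = a := by
  rw [inv, dif_neg (e a).2]; simp

theorem inv_isM (e : {v // c v = true} ≃ {v // ¬ c v = true})
    (he : ∀ a : {v // c v = true}, G.Adj a (e a)) :
    IsM G (inv c e) ∧ free (inv c e) = 0 := by
  have key : ∀ v, inv c e (inv c e v) = v ∧ G.Adj v (inv c e v) := fun v => by
    by_cases h : c v = true
    · have := inv_left e ⟨v, h⟩
      simp only at this
      rw [this, inv_right]
      exact ⟨rfl, he ⟨v, h⟩⟩
    · obtain ⟨a, ha⟩ := e.surjective ⟨v, h⟩
      have : v = e a := by rw [ha]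
      rw [this, inv_right, inv_left]
      exact ⟨rfl, (he a).symm⟩
  refine ⟨fun v => ⟨(key v).1, fun _ => (key v).2⟩, ?_⟩
  have : {v | inv c e v = v} = ∅ := Set.eq_empty_of_forall_notMem fun v h => (key v).2.ne' h
  rw [free, this, Set.ncard_empty]

theorem comb_of_two [Fintype V] [DecidableEq V] (e e' : {v // c v = true} ≃ {v // ¬ c v = true})
    (he : ∀ a : {v // c v = true}, G.Adj a (e a))
    (he' : ∀ a : {v // c v = true}, G.Adj a (e' a)) (hne : e ≠ e') {L : ℕ}
    (hL : (univ.filter fun a => e a ≠ e' a).card ≤ L) : Comb G (2 * L) := by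
  obtain ⟨a0, ha0⟩ : ∃ a, e a ≠ e' a := by
    by_contra h
    push Not at h
    exact hne (Equiv.ext h)
  let π : {v // c v = true} → {v // c v = true} := fun a => e'.symm (e a)
  have hπ : Injective π := e'.symm.injective.comp e.injective
  have hper : a0 ∈ periodicPts π := hπ.mem_periodicPts a0
  have h0 : 0 < minimalPeriod π a0 := minimalPeriod_pos_of_mem_periodicPts hper
  have hfix : π a0 ≠ a0 := fun h => ha0 ((Equiv.symm_apply_eq _).1 h)
  have h1 : minimalPeriod π a0 ≠ 1 := fun h => hfix (minimalPeriod_eq_one_iff_isFixedPt.1 h)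
  have hinj := iterate_injOn_Iio_minimalPeriod (f := π) (x := a0)
  have hl : minimalPeriod π a0 ≤ L := by
    refine le_trans ?_ hL
    rw [← card_range (minimalPeriod π a0)]
    refine Finset.card_le_card_of_injOn (fun i => π^[i] a0) (fun i _ => ?_) (by simpa using hinj)
    simp only [coe_filter, mem_univ, true_and, Set.mem_setOf_eq]
    intro h
    have h2 : π (π^[i] a0) = π^[i] a0 := by simp only [π] at h ⊢; rw [h]; simp
    rw [← iterate_succ_apply' π, iterate_succ_apply] at h2
    exact hfix (hπ.iterate i h2)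
  have hcyc : π^[minimalPeriod π a0] a0 = a0 := iterate_minimalPeriod
  generalize minimalPeriod π a0 = l at *
  let f : ℕ → V := fun t => if t % 2 = 0 then π^[t / 2] a0 else e (π^[t / 2] a0)
  have f0 : ∀ i, f (2 * i) = π^[i] a0 := fun i => by simp [f]
  have f1 : ∀ i, f (2 * i + 1) = e (π^[i] a0) := fun i => by
    simp [f, show (2 * i + 1) / 2 = i by omega]
  refine ⟨inv c e, (inv_isM e he).1, fun μ' _ => by rw [(inv_isM e he).2]; omega, 2 * l, f,
    by omega, by omega, fun a ha b hb hab => ?_, ?_, fun t _ => ?_, fun t ht => ?_⟩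
  · simp only [Set.mem_ofPred_eq] at ha hb
    obtain ⟨i, rfl | rfl⟩ := Nat.even_or_odd' a <;> obtain ⟨j, rfl | rfl⟩ := Nat.even_or_odd' b <;>
      simp only [f0, f1] at hab
    · rw [hinj (show i < l by omega) (show j < l by omega) (Subtype.ext hab)]
    · exact absurd (hab ▸ (π^[i] a0).2) (e _).2
    · exact absurd (hab ▸ (π^[j] a0).2) (e _).2
    · rw [hinj (show i < l by omega) (show j < l by omega) (e.injective (Subtype.ext hab))]
  · rw [f0, hcyc]; exact (f0 0).symm
  · obtain ⟨i, rfl | rfl⟩ := Nat.even_or_odd' t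
    · rw [f0, f1]; exact he _
    · rw [f1, show 2 * i + 1 + 1 = 2 * (i + 1) by ring, f0, iterate_succ_apply']
      have := he' (π (π^[i] a0))
      simp only [π, Equiv.apply_symm_apply] at this ⊢
      exact this.symm
  · obtain ⟨i, rfl | rfl⟩ := Nat.even_or_odd' t
    · exact ⟨2 * i, ht, by rw [f0, f1, inv_left]⟩
    · exact ⟨2 * i, by omega, by rw [f0, f1, inv_right, Sym2.eq_swap]⟩

theorem exists_colour (hb : G.IsBipartite) : ∃ c : V → Bool, ∀ u v, G.Adj u v → c u ≠ c v := by
  obtain ⟨C⟩ := hb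
  refine ⟨fun v => decide (C v = 0), fun u v h => ?_⟩
  have := C.valid h
  simp only
  generalize C u = a at *
  generalize C v = b at *
  revert a b; decide

open Classical in
theorem three_pm [Fintype V] (h3 : ∀ v, (G.neighborSet v).ncard = 3)
    (hc : ∀ u v, G.Adj u v → c u ≠ c v) :
    ∃ e1 e2 e3 : {v // c v = true} ≃ {v // ¬ c v = true}, ∀ a : {v // c v = true},
      (G.Adj a (e1 a) ∧ G.Adj a (e2 a) ∧ G.Adj a (e3 a)) ∧ e1 a ≠ e2 a ∧ e1 a ≠ e3 a ∧ e2 a ≠ e3 a := by
  let A : {v // c v = true} → {v // ¬ c v = true} → ℕ := fun a b => if G.Adj a b then 1 else 0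
  have r1 : ∀ a, ∑ b, A a b = 2 + 1 := fun a => by
    exact sum_adj h3 (fun v => ¬ c v = true) a fun w hw h => hc _ _ hw (a.2.trans h.symm)
  have c1 : ∀ b, ∑ a, A a b = 2 + 1 := fun b => by
    simp only [A, G.adj_comm _ b.1]
    exact sum_adj h3 (fun v => c v = true) b fun w hw => by
      have := hc _ _ hw
      have := b.2
      simp_all
  obtain ⟨e1, s1⟩ := exists_sup A (by norm_num) r1 c1
  obtain ⟨r2, c2⟩ := sub_perm r1 c1 s1
  obtain ⟨e2, s2⟩ := exists_sup _ (by norm_num) r2 c2
  obtain ⟨r3, c3⟩ := sub_perm (k := 1) r2 c2 s2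
  obtain ⟨e3, s3⟩ := exists_sup _ (by norm_num) r3 c3
  refine ⟨e1, e2, e3, fun a => ?_⟩
  have a1 := s1 a
  have a2 := s2 a
  have a3 := s3 a
  have b : ∀ w, A a w ≤ 1 ∧ (0 < A a w → G.Adj a w) := fun w => by
    simp only [A]; split_ifs with h <;> simp [h]
  have b2 := (b (e2 a)).1
  have b3 := (b (e3 a)).1
  simp only at a2 a3
  refine ⟨⟨(b _).2 a1, (b _).2 (by omega), (b _).2 (by omega)⟩, fun h => ?_, fun h => ?_,
    fun h => ?_⟩
  · rw [if_pos h] at a2; omega
  · rw [if_pos h] at a3; omega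
  · rw [if_pos h] at a3; omega

theorem comb_log [Fintype V] [Nonempty V] (h3 : ∀ v, (G.neighborSet v).ncard = 3)
    (hb : G.IsBipartite) {t : ℕ} (hN : Fintype.card V ^ 2 < 2 ^ t) : Comb G (2000 * t) := by
  classical
  obtain ⟨c, hc⟩ := exists_colour hb
  obtain ⟨e1, e2, e3, he⟩ := three_pm h3 hc
  have : Nonempty {v // c v = true} := by
    obtain ⟨v⟩ := ‹Nonempty V›
    by_cases h : c v = true
    exacts [⟨⟨v, h⟩⟩, ⟨e1.symm ⟨v, h⟩⟩]
  obtain ⟨σ, τ, hσ, hτ, hne, hL⟩ := short_log (α := e2.trans e1.symm) (β := e3.trans e1.symm)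
    (fun a => by
      obtain ⟨-, a1, a2, a3⟩ := he a
      simpa [Equiv.symm_apply_eq] using ⟨a1.symm, a2.symm, a3⟩)
    ((Nat.pow_le_pow_left (Fintype.card_subtype_le _) 2).trans_lt hN)
  have adj : ∀ σ, PM (e2.trans e1.symm) (e3.trans e1.symm) σ →
      ∀ a : {v // c v = true}, G.Adj a (e1 (σ a)) := fun σ h a => by
      obtain ⟨⟨a1, a2, a3⟩, -⟩ := he a
      rcases h.2 a with h | h | h <;> rw [h] <;> simpa
  rw [show 2000 * t = 2 * (1000 * t) by ring]
  refine comb_of_two ((Equiv.ofBijective σ hσ.1.bijective_of_finite).trans e1)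
    ((Equiv.ofBijective τ hτ.1.bijective_of_finite).trans e1) (adj σ hσ) (adj τ hτ)
    (fun h => hne (funext fun a => e1.injective (Equiv.congr_fun h a))) ?_
  simpa using hL

end Pool.Agent.P.MP_cb63a5_lc.Cub
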