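import Pool.Agent.P.MP_cb63a5_lc.Defs

namespace Pool.Agent.P.MP_cb63a5_lc

open Classical in
/-- The language of the shortest alternating cycle problem for 3-regular bipartite graphs. -/
noncomputable def CubicSAC : N68a2faeb.DecisionProblem := fun x =>
  decide (∃ (n : ℕ) (G : SimpleGraph (Fin n)) (L : ℕ),
    x = N487b59b3.bitEncode (adjMatrix G, L) ∧ (∀ v, (G.neighborSet v).ncard = 3) ∧
      G.IsBipartite ∧ 0 < L ∧ L ≤ n ∧ HasShortAltCycle G L)

end Pool.Agent.P.MP_cb63a5_lc
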