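import Pool.Agent.P.MP_cb63a5_lc.Cub.Algo
import Pool.Agent.P.MP_cb63a5_lc.Cub.Defs

/-! The shortest alternating cycle problem for 3-regular bipartite graphs is in `P`. -/

namespace Pool.Agent.P.MP_cb63a5_lc.Cub

open Pool.Agent.Lib.NP N487b59b3 N68a2faeb Polynomial Function

def okMat (A : Mat) (w : List ℕ) : Mat :=
  (List.range A.length).map fun i => (List.range A.length).map fun j =>
    bif w.contains i || w.contains j then i == j else ent A i j

def chkW (A : Mat) (L : ℕ) (w : List ℕ) : Bool :=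
  decide (3 ≤ w.length) && decide (w.length ≤ L) && ((List.range w.length).all fun t =>
    decide (cyc w t < A.length) && ent A (cyc w t) (cyc w (t + 1)) &&
    (List.range w.length).all fun s => !(cyc w s == cyc w t) || s == t) && hasPerm (okMat A w)

def run (C : ℕ) (x : List Bool) (A : Mat) : Bool :=
  chkGraph A && ((List.range A.length).all fun i => (nbrs A i).length == 3) && bip A &&
    (List.range (A.length + 1)).any fun L =>
      x == delimit (enc A) ++ Computability.encodeNat L && decide (0 < L) &&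
        (walks A (C * (nb A.length).length)).any fun w => chkW A L w

theorem pt_chkW : PT (fun p : Mat × ℕ × List ℕ => chkW p.1 p.2.1 p.2.2) := by
  have h1 : PT (fun p : Mat × ℕ × List ℕ => hasPerm (okMat p.1 p.2.2)) :=
    pt_hasPerm.comp (by unfold okMat ent; fun_prop)
  refine PT.and ?_ h1
  unfold cyc ent
  fun_prop

theorem pt_run (C : ℕ) : PT (fun p : List Bool × Mat => run C p.1 p.2) := by
  have h1 : PT (fun p : ((List Bool × Mat) × ℕ) × List ℕ => chkW p.1.1.2 p.1.2 p.2) :=
    (pt_chkW.comp (g := fun p : ((List Bool × Mat) × ℕ) × List ℕ => (p.1.1.2, p.1.2, p.2))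
      (by fun_prop)).congr fun _ => rfl
  have h2 : PT (fun p : (List Bool × Mat) × ℕ =>
      (walks p.1.2 (C * (nb p.1.2.length).length)).any fun w => chkW p.1.2 p.2 w) :=
    PT.any (f := fun (p : (List Bool × Mat) × ℕ) (w : List ℕ) => chkW p.1.2 p.2 w) h1
      ((pt_walks C).comp (g := fun p : (List Bool × Mat) × ℕ => p.1.2) (by fun_prop))
  refine PT.and (PT.and ?_ (pt_bip.comp (by fun_prop))) (PT.any
    (f := fun (p : List Bool × Mat) (L : ℕ) =>
      p.1 == delimit (enc p.2) ++ Computability.encodeNat L && decide (0 < L) &&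
        (walks p.2 (C * (nb p.2.length).length)).any fun w => chkW p.2 L w)
    (PT.and (by fun_prop) h2) (by fun_prop))
  unfold chkGraph nbrs ent
  fun_prop

section

variable {n : ℕ} {G : SimpleGraph (Fin n)}

theorem length_nbrs (i : Fin n) : (nbrs (adjMatrix G) i).length = (G.neighborSet i).ncard := by
  rw [nbrs, ← List.countP_eq_length_filter, length_adjMatrix,
    ← ncard_fin_eq_countP (fun j => G.Adj i j) _ fun j => (ent_adjMatrix G i j).symm]
  rfl

theorem chkW_iff {L : ℕ} {w : List ℕ} {f : ℕ → Fin n} (hf : ∀ t ≤ w.length, cyc w t = f t) :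
    chkW (adjMatrix G) L w = true ↔ w.length ≤ L ∧ Good G w.length f := by
  have hw : ∀ v : Fin n, w.contains v.1 = true ↔ ∃ t < w.length, f t = v := fun v => by
    rw [List.contains_iff_mem, List.mem_iff_getElem]
    refine ⟨fun ⟨t, ht, h⟩ => ⟨t, ht, Fin.ext ?_⟩, fun ⟨t, ht, h⟩ => ⟨t, ht, ?_⟩⟩
    · rw [← hf t ht.le, ← h]; simp [cyc, Nat.mod_eq_of_lt ht, ht]
    · rw [← h, ← hf t ht.le]; simp [cyc, Nat.mod_eq_of_lt ht, ht]
  have hl : (okMat (adjMatrix G) w).length = n := by simp [okMat, length_adjMatrix]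
  have hok : ∀ u v : Fin n, ok (okMat (adjMatrix G) w) u v = true ↔
      ((∃ t < w.length, f t = u ∨ f t = v) → u = v) ∧
        ((¬ ∃ t < w.length, f t = u ∨ f t = v) → G.Adj u v) := fun u v => by
    have e : (∃ t < w.length, f t = u ∨ f t = v) ↔ (w.contains u.1 || w.contains v.1) = true := by
      simp only [Bool.or_eq_true, hw, and_or_left, exists_or]
    rw [ok, hl, ent, okMat, length_adjMatrix, getD_map_range _ u.2, getD_map_range _ v.2, e]
    cases w.contains u.1 || w.contains v.1 <;> simp [ent_adjMatrix, Fin.ext_iff]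
  have hp : hasPerm (okMat (adjMatrix G) w) = true ↔ ∃ σ : Fin n → Fin n, Injective σ ∧
      ∀ v : Fin n, ok (okMat (adjMatrix G) w) v (σ v) = true := by
    rw [hasPerm_iff, hl]
    constructor
    · rintro ⟨σ, h1, h2⟩
      refine ⟨fun v => ⟨σ v, (ok_lt (h1 v v.2.le v.2.ne)).trans_eq hl⟩, fun u v h => Fin.ext ?_,
        fun v => h1 v v.2.le v.2.ne⟩
      exact h2 u u.2.le v v.2.le u.2.ne v.2.ne (congrArg Fin.val h)
    · rintro ⟨σ, h1, h2⟩
      refine ⟨fun r => if h : r < n then σ ⟨r, h⟩ else 0, fun r a1 a2 => ?_,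
        fun r a1 r' a2 a3 a4 h => ?_⟩
      · simp only [show r < n by omega, dif_pos]
        exact h2 ⟨r, by omega⟩
      · simp only [show r < n by omega, show r' < n by omega, dif_pos] at h
        exact congrArg Fin.val (h1 (Fin.ext h))
  simp only [chkW, hp, hok, length_adjMatrix, List.all_eq_true, List.mem_range, Bool.and_eq_true,
    beq_iff_eq, Bool.or_eq_true, decide_eq_true_eq, Good, Bool.not_eq_true',
    beq_eq_false_iff_ne]
  constructor
  · rintro ⟨⟨⟨h3, hL⟩, h⟩, hσ⟩
    refine ⟨hL, h3, fun a ha b hb hab => ?_, ?_, fun t ht => ?_, hσ⟩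
    · have := (h b hb).2 a ha
      rw [hf a (le_of_lt ha), hf b (le_of_lt hb), hab] at this
      simpa using this
    · apply Fin.ext
      rw [← hf _ le_rfl, ← hf 0 (by omega)]
      simp [cyc]
    · have := (h t ht).1.2
      rwa [hf t ht.le, hf (t + 1) ht, ent_adjMatrix] at this
  · rintro ⟨hL, h3, a1, a2, a3, hσ⟩
    refine ⟨⟨⟨h3, hL⟩, fun t ht => ⟨⟨?_, ?_⟩, fun s hs => ?_⟩⟩, hσ⟩
    · rw [hf t ht.le]; exact (f t).2
    · rw [hf t ht.le, hf (t + 1) ht, ent_adjMatrix]; exact a3 t ht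
    · rw [hf t ht.le, hf s hs.le]
      by_cases h : f s = f t
      · exact Or.inr (a1 hs ht h)
      · exact Or.inl fun h' => h (Fin.ext h')

end

theorem run_sound (C : ℕ) (x : List Bool) (A : Mat) (h : run C x A = true) :
    CubicSAC x = true := by
  simp only [run, Bool.and_eq_true, beq_iff_eq, decide_eq_true_eq, List.any_eq_true,
    List.all_eq_true, List.mem_range] at h
  obtain ⟨⟨⟨h1, h2⟩, h3⟩, L, hL, ⟨h4, h5⟩, w, -, h6⟩ := h
  obtain ⟨G, hG⟩ := exists_graph h1
  generalize A.length = n at G hG h2 hL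
  subst hG
  have hlt : ∀ t, cyc w t < n := by
    intro t
    simp only [chkW, length_adjMatrix, List.all_eq_true, List.mem_range, Bool.and_eq_true,
      decide_eq_true_eq] at h6
    have := (h6.1.2 (t % w.length) (Nat.mod_lt _ (by omega))).1.1
    simpa [cyc] using this
  obtain ⟨a1, a2⟩ := (chkW_iff (f := fun t => ⟨cyc w t, hlt t⟩) fun _ _ => rfl).1 h6
  have hb := (bip_iff G).1 h3
  simp only [CubicSAC, decide_eq_true_eq]
  exact ⟨n, G, L, h4, fun v => by rw [← length_nbrs]; exact h2 v v.2, hb, h5, by omega,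
    (yes_iff_comb L).2 (comb_of_good hb a1 a2)⟩

theorem run_complete {C : ℕ} (hC : 4000 ≤ C) {n : ℕ} (G : SimpleGraph (Fin n)) {L : ℕ}
    (h3 : ∀ v, (G.neighborSet v).ncard = 3) (hb : G.IsBipartite) (h0 : 0 < L) (hL : L ≤ n)
    (h : HasShortAltCycle G L) :
    run C (delimit (enc (adjMatrix G)) ++ Computability.encodeNat L) (adjMatrix G) = true := by
  have : Nonempty (Fin n) := ⟨⟨0, by omega⟩⟩
  obtain ⟨N, f, a1, a2, a3⟩ := (yes_iff_good h3 hb (t := 2 * (nb n).length) (by
    rw [Fintype.card_fin, mul_comm, pow_mul]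
    exact Nat.pow_lt_pow_left (lt_two_pow_length n) (by norm_num)) L).1 h
  obtain ⟨j, rfl⟩ : ∃ j, N = j + 1 := ⟨N - 1, by have := a3.1; omega⟩
  have hn : ∀ i < n, (nbrs (adjMatrix G) i).length = 3 := fun i hi => by
    rw [length_nbrs ⟨i, hi⟩, h3]
  simp only [run, Bool.and_eq_true, beq_iff_eq, decide_eq_true_eq, List.any_eq_true,
    List.all_eq_true, List.mem_range, length_adjMatrix]
  refine ⟨⟨⟨chkGraph_adjMatrix G, hn⟩, (bip_iff G).2 hb⟩, L, by omega, ⟨rfl, h0⟩,
    (List.range (j + 1)).map fun t => (f t).1, mem_walks (fun i hi => ?_) _ j ?_ (fun t _ => ?_)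
    fun t ht => ?_, ?_⟩
  · rw [length_adjMatrix] at hi
    exact (hn i hi).le
  · have := Nat.mul_le_mul_right (nb n).length hC
    omega
  · rw [length_adjMatrix]; exact (f t).2
  · exact (ent_adjMatrix G _ _).2 (a3.2.2.2.1 t (by omega))
  · have hl : ((List.range (j + 1)).map fun t => (f t).1).length = j + 1 := by simp
    refine (chkW_iff (f := f) fun t ht => ?_).2 (by rw [hl]; exact ⟨a1, a3⟩)
    rw [hl] at ht
    rw [cyc, hl, getD_map_range _ (Nat.mod_lt _ (Nat.succ_pos j))]
    rcases ht.lt_or_eq with ht | rfl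
    · rw [Nat.mod_eq_of_lt ht]
    · rw [Nat.mod_self, a3.2.2.1]

theorem cubic_mem_P : CubicSAC ∈ P := by
  obtain ⟨d, hd, hd'⟩ := HasDec.bool.list.list
  obtain ⟨C, hC⟩ : ∃ C, 4000 ≤ C := ⟨_, le_rfl⟩
  refine PT.isPolyTime_pred (((pt_run C).comp
    (g := fun x : List Bool => (x, d (x.foldl undStep (0, [], [])).2.1))
    (PT.id'.mk (hd.comp pt_und.snd.fst))).congr fun x => ?_)
  rw [Bool.eq_iff_iff]
  refine ⟨run_sound C x _, fun h => ?_⟩
  simp only [CubicSAC, decide_eq_true_eq] at h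
  obtain ⟨n, G, L, hx, h3, hb, h0, hL, h⟩ := h
  have hx' : x = delimit (enc (adjMatrix G)) ++ Computability.encodeNat L := hx
  rw [hx', undStep_delimit, List.nil_append, hd']
  exact run_complete hC G h3 hb h0 hL h

end Pool.Agent.P.MP_cb63a5_lc.Cub
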