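import Pool.Agent.P.MP_cb63a5_lc.Cub.Voor

/-! Two perfect matchings that differ only on a given set of rows with few outside neighbours. -/

namespace Pool.Agent.P.MP_cb63a5_lc.Cub

open Finset

variable {ρ γ : Type} [Fintype ρ] [Fintype γ] [DecidableEq ρ] [DecidableEq γ]

/-- A bijection inside the support of `A`. -/
def Sup (A : ρ → γ → ℕ) (e : ρ ≃ γ) : Prop := ∀ r, 0 < A r (e r)

/-- Two different bijections inside the support that agree outside `Z`. -/
def Two (A : ρ → γ → ℕ) (Z : ρ → Prop) : Prop :=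
  ∃ e1 e2, Sup A e1 ∧ Sup A e2 ∧ e1 ≠ e2 ∧ ∀ r, ¬ Z r → e1 r = e2 r

structure Hyp (z δ : ℕ) (A : ρ → γ → ℕ) (Z : ρ → Prop) (X : γ → Prop) [DecidablePred Z]
    [DecidablePred X] : Prop where
  reg : Reg A
  cz : (univ.filter Z).card = z
  le1 : ∀ r c, Z r → A r c ≤ 1
  zero : ∀ r c, Z r → X c → A r c = 0
  cx : (univ.filter fun c => ¬ X c).card ≤ z + δ

theorem card_filter_ne {α : Type} [Fintype α] [DecidableEq α] (p : α → Prop) [DecidablePred p]
    {a : α} (h : ¬ p a) :
    (univ.filter fun b : {b // b ≠ a} => p b).card = (univ.filter p).card := by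
  rw [Finset.card_filter, Finset.card_filter, Fintype.sum_eq_add_sum_subtype_ne _ a, if_neg h,
    zero_add]

/-- Contraction of a multiple edge. -/
def contr (A : ρ → γ → ℕ) (y : ρ) (x : γ) : {r // r ≠ y} → {c // c ≠ x} → ℕ :=
  fun r c => A r c + A r x * A y c

theorem contr_row {A : ρ → γ → ℕ} (hA : Reg A) {y : ρ} {x : γ} (h : 2 ≤ A y x)
    (r : {r // r ≠ y}) : ∑ c, contr A y x r c = 3 := by
  have a1 := hA.1 r
  have a2 := hA.1 y
  have a3 := hA.2 x
  rw [Fintype.sum_eq_add_sum_subtype_ne _ x] at a1 a2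
  rw [Fintype.sum_eq_add_sum_subtype_ne _ y] at a3
  have a4 := Finset.single_le_sum (f := fun r : {r // r ≠ y} => A r x) (fun _ _ => Nat.zero_le _)
    (mem_univ r)
  simp only [contr, Finset.sum_add_distrib, ← Finset.mul_sum]
  have : ∑ c : {c // c ≠ x}, A y c = 1 ∨ (∑ c : {c // c ≠ x}, A y c = 0 ∧ A r x = 0) := by omega
  rcases this with e | ⟨e, e'⟩
  · rw [e]; omega
  · rw [e]; omega

theorem two_of_contr {A : ρ → γ → ℕ} (hA : Reg A) {Z : ρ → Prop} {y : ρ} {x : γ}
    (h : 2 ≤ A y x) (hz : ∀ r, Z r → A r x = 0) (h2 : Two (contr A y x) fun r => Z r) :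
    Two A Z := by
  obtain ⟨e1, e2, s1, s2, hne, hag⟩ := h2
  have hne' : ext y x e1 ≠ ext y x e2 := fun h' => hne (by
    ext r
    rw [← ext_ne x e1 r.2, ← ext_ne x e2 r.2, h'])
  have hag' : ∀ r, ¬ Z r → ext y x e1 r = ext y x e2 r := fun r hr => by
    by_cases hy : r = y
    · rw [hy, ext_self, ext_self]
    · rw [ext_ne _ _ hy, ext_ne _ _ hy, hag ⟨r, hy⟩ hr]
  by_cases hc : ∃ r0 : {r // r ≠ y}, ¬ Z r0 ∧ A r0 (e1 r0) = 0
  · obtain ⟨r0, hr0, h0⟩ := hc
    have p1 := s1 r0
    simp only [contr, h0, zero_add] at p1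
    have p2 : 0 < A r0 x := Nat.pos_of_mul_pos_right p1
    have p3 : 0 < A y (e1 r0) := Nat.pos_of_mul_pos_left p1
    have hzero : ∀ r : {r // r ≠ y}, r ≠ r0 → A r x = 0 := fun r hr => by
      have a3 := hA.2 x
      rw [Fintype.sum_eq_add_sum_subtype_ne _ y, Fintype.sum_eq_add_sum_subtype_ne _ r0] at a3
      have a4 := Finset.single_le_sum (f := fun r : {r : {r // r ≠ y} // r ≠ r0} => A r x)
        (fun _ _ => Nat.zero_le _) (mem_univ ⟨r, hr⟩)
      simp only at a4
      omega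
    have hs : ∀ e, Sup (contr A y x) e → e r0 = e1 r0 →
        Sup A ((Equiv.swap y r0.1).trans (ext y x e)) := fun e he h1 r => by
      simp only [Equiv.trans_apply]
      by_cases hy : r = y
      · rw [hy, Equiv.swap_apply_left, ext_ne _ _ r0.2, h1]; exact p3
      · by_cases hr : r = r0
        · rw [hr, Equiv.swap_apply_right, ext_self]; exact p2
        · rw [Equiv.swap_apply_of_ne_of_ne hy hr, ext_ne _ _ hy]
          have := he ⟨r, hy⟩
          simpa [contr, hzero ⟨r, hy⟩ fun h' => hr (congrArg Subtype.val h')] using this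
    refine ⟨_, _, hs e1 s1 rfl, hs e2 s2 (hag r0 hr0).symm, fun h' => hne' ?_, fun r hr => ?_⟩
    · ext r
      have := Equiv.congr_fun h' (Equiv.swap y r0.1 r)
      simpa using this
    · simp only [Equiv.trans_apply]
      by_cases hy : r = y
      · rw [hy, Equiv.swap_apply_left]; exact hag' _ hr0
      · by_cases hr' : r = r0
        · rw [hr', Equiv.swap_apply_right, ext_self, ext_self]
        · rw [Equiv.swap_apply_of_ne_of_ne hy hr']; exact hag' _ hr
  · push Not at hc
    have hs : ∀ e, Sup (contr A y x) e → (∀ r : {r // r ≠ y}, ¬ Z r → e r = e1 r) →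
        Sup A (ext y x e) := fun e he h1 r => by
      by_cases hy : r = y
      · rw [hy, ext_self]; omega
      · rw [ext_ne _ _ hy]
        by_cases hr : Z r
        · simpa [contr, hz r hr] using he ⟨r, hy⟩
        · rw [h1 ⟨r, hy⟩ hr]; exact Nat.pos_of_ne_zero (hc ⟨r, hy⟩ hr)
    exact ⟨_, _, hs e1 s1 fun _ _ => rfl, hs e2 s2 fun r hr => (hag r hr).symm, hne', hag'⟩

theorem Hyp.contr {z δ : ℕ} {A : ρ → γ → ℕ} {Z : ρ → Prop} {X : γ → Prop} [DecidablePred Z]
    [DecidablePred X] (H : Hyp z δ A Z X) {y : ρ} {x : γ} (hy : ¬ Z y) (hx : X x)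
    (h : 2 ≤ A y x) : Hyp z δ (contr A y x) (fun r => Z r) fun c => X c where
  reg := ⟨contr_row H.reg h, fun c => by
    have := contr_row (A := fun c r => A r c) ⟨H.reg.2, H.reg.1⟩ (y := x) (x := y) h c
    simpa only [Cub.contr, mul_comm] using this⟩
  cz := by rw [card_filter_ne Z hy, H.cz]
  le1 := fun r c hr => by simpa [Cub.contr, H.zero r x hr hx] using H.le1 r c hr
  zero := fun r c hr hc => by simp [Cub.contr, H.zero r x hr hx, H.zero r c hr hc]
  cx := by rw [card_filter_ne (fun c => ¬ X c) (not_not.2 hx)]; exact H.cx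

section

variable {z δ : ℕ} {A : ρ → γ → ℕ} {Z : ρ → Prop} {X : γ → Prop} [DecidablePred Z]
  [DecidablePred X]

/-- The pairs of a bijection that join a row outside `Z` to a column outside `X`. -/
def cfg (Z : ρ → Prop) (X : γ → Prop) [DecidablePred Z] [DecidablePred X] (e : ρ ≃ γ) :
    Finset (ρ × γ) := univ.filter fun p => (¬ Z p.1 ∧ ¬ X p.2) ∧ e p.1 = p.2

theorem Hyp.bd_le (H : Hyp z δ A Z X) :
    ∑ p ∈ univ.filter fun p : ρ × γ => ¬ Z p.1 ∧ ¬ X p.2, A p.1 p.2 ≤ 3 * δ := by
  have e1 : (univ.filter fun p : ρ × γ => ¬ Z p.1 ∧ ¬ X p.2) =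
      (univ.filter fun r => ¬ Z r) ×ˢ (univ.filter fun c => ¬ X c) := by ext p; simp
  rw [e1, Finset.sum_product]
  have e2 : ∑ r, ∑ c ∈ univ.filter fun c => ¬ X c, A r c =
      3 * (univ.filter fun c => ¬ X c).card := by
    rw [Finset.sum_comm]; simp [H.reg.2, mul_comm]
  have e3 : ∑ r ∈ univ.filter Z, ∑ c ∈ univ.filter fun c => ¬ X c, A r c = 3 * z := by
    rw [← H.cz, mul_comm, ← smul_eq_mul, ← Finset.sum_const]
    refine Finset.sum_congr rfl fun r hr => ?_
    rw [← H.reg.1 r, ← Finset.sum_filter_add_sum_filter_not univ X,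
      Finset.sum_eq_zero (s := univ.filter X), zero_add]
    intro c hc
    exact H.zero r c (by simpa using hr) (by simpa using hc)
  rw [← Finset.sum_filter_add_sum_filter_not univ Z, e3] at e2
  have := H.cx
  simp only at e2 ⊢
  omega

theorem Hyp.per_le (H : Hyp z δ A Z X) (hl : ∀ y x, ¬ Z y → X x → A y x ≤ 1)
    (hi : ∀ e e', Sup A e → Sup A e' → cfg Z X e = cfg Z X e' → e = e') : per A ≤ 8 ^ δ := by
  classical
  have h1 : per A ≤ ∑ e ∈ univ.filter (Sup A), ∏ p ∈ cfg Z X e, A p.1 p.2 := by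
    unfold per
    rw [Finset.sum_filter]
    refine Finset.sum_le_sum fun e _ => ?_
    split_ifs with he
    · rw [← Finset.prod_filter_mul_prod_filter_not univ fun r => ¬ Z r ∧ ¬ X (e r)]
      have a1 : ∏ r ∈ univ.filter fun r => ¬ (¬ Z r ∧ ¬ X (e r)), A r (e r) ≤ 1 := by
        refine Finset.prod_le_one' fun r hr => ?_
        by_cases hz : Z r
        · exact H.le1 _ _ hz
        · exact hl _ _ hz (by simpa [hz] using hr)
      have a2 : ∏ r ∈ univ.filter fun r => ¬ Z r ∧ ¬ X (e r), A r (e r) =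
          ∏ p ∈ cfg Z X e, A p.1 p.2 := by
        refine Finset.prod_bij (fun r _ => (r, e r)) (fun r hr => by simpa [cfg] using hr)
          (fun r _ r' _ h => congrArg Prod.fst h) ?_ fun _ _ => rfl
        rintro ⟨r, c⟩ hp
        simp only [cfg, mem_filter, mem_univ, true_and] at hp
        obtain ⟨hp, rfl⟩ := hp
        exact ⟨r, by simpa using hp, rfl⟩
      rw [a2]
      exact (Nat.mul_le_mul_left _ a1).trans (by rw [mul_one])
    · simp only [Sup, not_forall, not_lt, Nat.le_zero] at he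
      obtain ⟨r, hr⟩ := he
      exact (Finset.prod_eq_zero (mem_univ r) hr).le
  rw [← Finset.sum_image (f := fun S : Finset (ρ × γ) => ∏ p ∈ S, A p.1 p.2) (g := cfg Z X)
    fun e he e' he' h => hi e e' (by simpa using he) (by simpa using he') h] at h1
  have h2 := Finset.sum_le_sum_of_subset (f := fun S : Finset (ρ × γ) => ∏ p ∈ S, A p.1 p.2)
    (show (univ.filter (Sup A)).image (cfg Z X) ⊆
      (univ.filter fun p : ρ × γ => ¬ Z p.1 ∧ ¬ X p.2).powerset from fun S hS => by
      obtain ⟨e, -, rfl⟩ := Finset.mem_image.1 hS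
      rw [Finset.mem_powerset]
      intro p hp
      simp only [cfg, mem_filter, mem_univ, true_and] at hp ⊢
      exact hp.1)
  rw [← Finset.prod_one_add] at h2
  refine (h1.trans h2).trans ?_
  refine (Finset.prod_le_prod' (g := fun p : ρ × γ => 2 ^ A p.1 p.2) fun p _ => ?_).trans ?_
  · have := Nat.lt_two_pow_self (n := A p.1 p.2)
    omega
  · rw [Finset.prod_pow_eq_pow_sum, show 8 = 2 ^ 3 from rfl, ← pow_mul]
    exact Nat.pow_le_pow_right (by norm_num) H.bd_le

/-- One unit moved from `e` to `e'` in every row outside `Z`. -/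
def shift (A : ρ → γ → ℕ) (Z : ρ → Prop) [DecidablePred Z] (e e' : ρ ≃ γ) : ρ → γ → ℕ :=
  fun r c => A r c - (if ¬ Z r ∧ e r = c then 1 else 0) + if ¬ Z r ∧ e' r = c then 1 else 0

theorem Hyp.shift (H : Hyp z δ A Z X) {e e' : ρ ≃ γ} (he : Sup A e) (he' : Sup A e')
    (h : cfg Z X e = cfg Z X e') : Hyp z δ (shift A Z e e') Z X := by
  have key : ∀ r c, Cub.shift A Z e e' r c + (if ¬ Z r ∧ e r = c then 1 else 0) =
      A r c + if ¬ Z r ∧ e' r = c then 1 else 0 := fun r c => by
    unfold Cub.shift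
    by_cases h1 : ¬ Z r ∧ e r = c
    · have := he r
      rw [h1.2] at this
      rw [if_pos h1]; omega
    · rw [if_neg h1]; omega
  have col : ∀ (f : ρ ≃ γ) c, ∑ r, (if ¬ Z r ∧ f r = c then 1 else 0) =
      if ¬ Z (f.symm c) then 1 else 0 := fun f c => by
    rw [Finset.sum_eq_single (f.symm c)]
    · simp
    · intro r _ hr
      exact if_neg fun h' => hr (by rw [← h'.2]; simp)
    · simp
  have iff1 : ∀ f f' : ρ ≃ γ, Sup A f' → cfg Z X f = cfg Z X f' → ∀ c, ¬ Z (f.symm c) →
      ¬ Z (f'.symm c) := fun f f' hf' hc c h1 h2 => by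
    by_cases hx : X c
    · have := hf' (f'.symm c)
      rw [Equiv.apply_symm_apply, H.zero _ _ h2 hx] at this
      omega
    · have : (f.symm c, c) ∈ cfg Z X f := by simp [cfg, h1, hx]
      rw [hc] at this
      simp only [cfg, mem_filter, mem_univ, true_and] at this
      rw [← this.2, Equiv.symm_apply_apply] at h2
      exact h1 h2
  refine ⟨⟨fun r => ?_, fun c => ?_⟩, H.cz, fun r c hr => ?_, fun r c hr hc => ?_, H.cx⟩
  · have := Finset.sum_congr (rfl : (univ : Finset γ) = univ) fun c _ => key r c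
    rw [Finset.sum_add_distrib, Finset.sum_add_distrib, H.reg.1] at this
    by_cases hz : Z r <;> simpa [hz] using this
  · have := Finset.sum_congr (rfl : (univ : Finset ρ) = univ) fun r _ => key r c
    rw [Finset.sum_add_distrib, Finset.sum_add_distrib, H.reg.2, col, col] at this
    have a1 := iff1 e e' he' h c
    have a2 := iff1 e' e he h.symm c
    by_cases hz : Z (e.symm c)
    · rw [if_neg (not_not.2 hz), if_neg fun h' => a2 h' hz] at this; omega
    · rw [if_pos hz, if_pos (a1 hz)] at this; omega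
  · simpa [Cub.shift, hr] using H.le1 r c hr
  · simp [Cub.shift, hr, H.zero r c hr hc]

end

theorem local_pair {z δ : ℕ} (hδ : 8 ^ δ * 3 ^ z < 4 ^ z) (n : ℕ) :
    ∀ (ρ γ : Type) [Fintype ρ] [Fintype γ] [DecidableEq ρ] [DecidableEq γ] (A : ρ → γ → ℕ)
      (Z : ρ → Prop) (X : γ → Prop) [DecidablePred Z] [DecidablePred X],
      Fintype.card ρ = n → Hyp z δ A Z X → Two A Z := by
  induction n using Nat.strong_induction_on with
  | _ n ih =>
  intro ρ γ _ _ _ _ A Z X _ _ hn H
  have heavy : ∀ B : ρ → γ → ℕ, Hyp z δ B Z X → ∀ y x, ¬ Z y → X x → 2 ≤ B y x → Two B Z := by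
    intro B HB y x hy hx h
    have : Nonempty ρ := ⟨y⟩
    have hp := Fintype.card_pos (α := ρ)
    exact two_of_contr HB.reg h (fun r hr => HB.zero r x hr hx)
      (ih (n - 1) (by omega) _ _ _ _ _ (card_ne y (by omega)) (HB.contr hy hx h))
  by_contra hc
  have hl : ∀ y x, ¬ Z y → X x → A y x ≤ 1 := fun y x hy hx => by
    by_contra h
    exact hc (heavy A H y x hy hx (by omega))
  have hi : ∀ e e', Sup A e → Sup A e' → cfg Z X e = cfg Z X e' → e = e' := by
    intro e e' he he' h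
    by_contra hne
    have : ∃ y, ¬ Z y ∧ e y ≠ e' y := by
      by_contra h'
      push Not at h'
      exact hc ⟨e, e', he, he', hne, h'⟩
    obtain ⟨y, hy, hy'⟩ := this
    have hx : X (e' y) := by
      by_contra hx
      have : (y, e' y) ∈ cfg Z X e' := by simp [cfg, hy, hx]
      rw [← h] at this
      simp [cfg, hy'] at this
    have hs : ∀ f, Sup (shift A Z e e') f → Sup A f := fun f hf r => by
      have := hf r
      unfold shift at this
      by_cases h1 : ¬ Z r ∧ e' r = f r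
      · exact h1.2 ▸ he' r
      · rw [if_neg h1] at this; omega
    obtain ⟨e1, e2, s1, s2, h3⟩ := heavy _ (H.shift he he' h) y (e' y) hy hx (by
      have := he' y
      simp only [shift, hy, hy', not_false_eq_true, and_false, if_false, and_self, if_true]
      omega)
    exact hc ⟨e1, e2, hs _ s1, hs _ s2, h3⟩
  have h1 := H.per_le hl hi
  have h2 := voorhoeve H.reg
  obtain ⟨k, hk⟩ : ∃ k, Fintype.card ρ = z + k :=
    Nat.exists_eq_add_of_le (H.cz ▸ Finset.card_le_univ _)
  rw [hk, pow_add, pow_add] at h2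
  have h3 : 3 ^ k ≤ 4 ^ k := Nat.pow_le_pow_left (by norm_num) k
  have h4 : 0 < 3 ^ k := by positivity
  have h5 : 3 ^ z * 3 ^ k * per A ≤ 8 ^ δ * 3 ^ z * 3 ^ k := by
    rw [mul_assoc (8 ^ δ), mul_comm (8 ^ δ)]; exact Nat.mul_le_mul_left _ h1
  have h6 := Nat.mul_lt_mul_of_pos_right hδ h4
  have h7 := Nat.mul_le_mul_left (4 ^ z) h3
  omega

end Pool.Agent.P.MP_cb63a5_lc.Cub
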