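import Pool.Agent.P.MP_cb63a5_lc.Cub.Ball

/-! Two perfect matchings at logarithmic distance. -/

namespace Pool.Agent.P.MP_cb63a5_lc.Cub

open Finset Function

variable {V : Type} [Fintype V] [DecidableEq V] {α β : Equiv.Perm V}

/-- The successor along a path. -/
noncomputable def nxt (x : ℕ → V) (t : ℕ) (v : V) : V :=
  if h : ∃ i < t, x i = v then x (h.choose + 1) else v

omit [Fintype V] in
theorem nxt_eq {x : ℕ → V} {t : ℕ} (hi : ∀ i ≤ t, ∀ j ≤ t, x i = x j → i = j) {i : ℕ}
    (h : i < t) : nxt x t (x i) = x (i + 1) := by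
  have h1 : ∃ j < t, x j = x i := ⟨i, h, rfl⟩
  rw [nxt, dif_pos h1, hi _ h1.choose_spec.1.le _ h.le h1.choose_spec.2]

omit [Fintype V] in
theorem pm_glue {x : ℕ → V} {t : ℕ} (hx : ∀ i < t, E α β (x i) (x (i + 1)))
    (hi : ∀ i ≤ t, ∀ j ≤ t, x i = x j → i = j) (ht : 0 < t) {T T' : Finset V}
    (h1 : ∀ i < t, x (i + 1) ∈ T') (h2 : x t ∉ T) (h3 : ∀ v ∈ T, v ≠ x 0 → v ∈ T')
    (f : {v // v ∉ T} → V) (hf : Injective f) (hf' : ∀ v, f v ∉ T' ∧ (f v = v ∨ E α β v (f v))) :
    PM α β fun v => if h : v ∈ T then nxt x t v else f ⟨v, h⟩ := by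
  have c : ∀ v, (∃ i < t, v = x i ∧ nxt x t v = x (i + 1)) ∨
      ((∀ i < t, x i ≠ v) ∧ nxt x t v = v) := fun v => by
    by_cases h : ∃ i < t, x i = v
    · obtain ⟨i, hi', rfl⟩ := h
      exact Or.inl ⟨i, hi', rfl, nxt_eq hi hi'⟩
    · exact Or.inr ⟨fun i hi' h' => h ⟨i, hi', h'⟩, dif_neg h⟩
  have m : ∀ v ∈ T, nxt x t v ∈ T' := fun v hv => by
    rcases c v with ⟨i, a1, -, a2⟩ | ⟨a1, a2⟩
    · exact a2 ▸ h1 i a1
    · rw [a2]; exact h3 v hv (a1 0 ht).symm
  have d : ∀ i < t, ∀ v ∈ T, (∀ i < t, x i ≠ v) → x (i + 1) ≠ v := fun i hi' v hv a h => by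
    by_cases e : i + 1 = t
    · exact h2 (by rwa [← e, h])
    · exact a (i + 1) (by omega) h
  refine ⟨fun a b hab => ?_, fun v => ?_⟩
  · by_cases ha : a ∈ T <;> by_cases hb : b ∈ T <;>
      simp only [ha, hb, dif_pos, dif_neg, not_false_eq_true] at hab
    · rcases c a with ⟨i, a1, a2, a3⟩ | ⟨a1, a2⟩ <;> rcases c b with ⟨j, b1, b2, b3⟩ | ⟨b1, b2⟩
      · rw [a3, b3] at hab
        have := hi _ a1 _ b1 hab
        rw [a2, b2, Nat.succ.inj this]
      · rw [a3, b2] at hab
        exact absurd hab (d i a1 b hb b1)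
      · rw [a2, b3] at hab
        exact absurd hab.symm (d j b1 a ha a1)
      · rwa [a2, b2] at hab
    · exact absurd (hab ▸ m a ha) (hf' _).1
    · exact absurd (hab ▸ m b hb) (hf' _).1
    · exact congrArg Subtype.val (hf hab)
  · by_cases hv : v ∈ T <;> simp only [hv, dif_pos, dif_neg, not_false_eq_true]
    · rcases c v with ⟨i, a1, a2, a3⟩ | ⟨a1, a2⟩
      · rw [a3, a2]; exact Or.inr (hx i a1)
      · exact Or.inl a2
    · exact (hf' ⟨v, hv⟩).2

/-- Two different paths with the same ends give two close matchings or a small cut. -/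
theorem theta {x y : ℕ → V} {t : ℕ} (hx : ∀ i < t, E α β (x i) (x (i + 1)))
    (hy : ∀ i < t, E α β (y i) (y (i + 1))) (hxi : ∀ i ≤ t, ∀ j ≤ t, x i = x j → i = j)
    (hyi : ∀ i ≤ t, ∀ j ≤ t, y i = y j → i = j) (h0 : x 0 = y 0) (h1 : x t = y t)
    (hne : ∃ i ≤ t, x i ≠ y i) (hn : ¬ Short α β (2 * t)) :
    ∃ S : Finset V, x t ∈ S ∧ x 0 ∉ S ∧ ∀ v ∈ S, ∀ v', E α β v v' →
      v' ∈ S ∨ ∃ i, 0 < i ∧ i < t ∧ (v' = x i ∨ v' = y i) := by
  have ht : 0 < t := by
    obtain ⟨i, hi, hi'⟩ := hne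
    rcases Nat.eq_zero_or_pos t with rfl | h
    · exact absurd (Nat.le_zero.1 hi ▸ h0) hi'
    · exact h
  let T := (range t).image x ∪ (range t).image y
  let T' := (range t).image (fun i => x (i + 1)) ∪ (range t).image fun i => y (i + 1)
  have mT : ∀ v, v ∈ T ↔ ∃ i < t, v = x i ∨ v = y i := fun v => by
    simp only [T, mem_union, mem_image, mem_range, eq_comm (a := v), and_or_left, exists_or]
  have mT' : ∀ v, v ∈ T' ↔ ∃ i < t, v = x (i + 1) ∨ v = y (i + 1) := fun v => by
    simp only [T', mem_union, mem_image, mem_range, eq_comm (a := v), and_or_left, exists_or]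
  have w1 : x t ∉ T := fun h => by
    obtain ⟨i, hi, h | h⟩ := (mT _).1 h
    · have := hxi _ le_rfl _ hi.le h; omega
    · have := hyi _ le_rfl _ hi.le (h1 ▸ h); omega
  have w2 : ∀ v ∈ T, v ≠ x 0 → v ∈ T' := fun v hv hv' => by
    obtain ⟨i, hi, h⟩ := (mT _).1 hv
    rcases i with _ | i
    · exact absurd (h.elim id fun h => h.trans h0.symm) hv'
    · exact (mT' _).2 ⟨i, by omega, h⟩
  have w3 : ∀ v ∈ T', v = x t ∨ ∃ i, 0 < i ∧ i < t ∧ (v = x i ∨ v = y i) := fun v hv => by
    obtain ⟨i, hi, h⟩ := (mT' _).1 hv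
    by_cases e : i + 1 = t
    · rw [e, ← h1, or_self] at h; exact Or.inl h
    · exact Or.inr ⟨i + 1, by omega, by omega, h⟩
  let nb : {v // v ∉ T} → Finset V := fun v => ({v.1, α v, β v} : Finset V) \ T'
  by_cases hall : ∀ s : Finset {v // v ∉ T}, s.card ≤ (s.biUnion nb).card
  · exfalso
    obtain ⟨f, hf, hf2⟩ := (Finset.all_card_le_biUnion_card_iff_exists_injective nb).1 hall
    have hf' : ∀ v, f v ∉ T' ∧ (f v = v ∨ E α β v (f v)) := fun v => by
      have := hf2 v
      simp only [nb, mem_sdiff, mem_insert, mem_singleton] at this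
      exact ⟨this.2, this.1⟩
    refine hn ⟨_, _, pm_glue hx hxi ht (fun i hi => (mT' _).2 ⟨i, hi, Or.inl rfl⟩) w1 w2 f hf hf',
      pm_glue hy hyi ht (fun i hi => (mT' _).2 ⟨i, hi, Or.inr rfl⟩) (h1 ▸ w1) (h0 ▸ w2) f hf hf',
      fun h => ?_, ?_⟩
    · obtain ⟨i, hi, hi'⟩ := hne
      refine hi' ?_
      clear hi'
      induction i with
      | zero => exact h0
      | succ i ih =>
        have a1 := congrFun h (x i)
        have a2 : x i ∈ T := (mT _).2 ⟨i, hi, Or.inl rfl⟩
        simp only [a2, dif_pos] at a1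
        rwa [nxt_eq hxi hi, ih (by omega), nxt_eq hyi hi] at a1
    · refine (Finset.card_le_card (t := T) fun v hv => ?_).trans
        ((card_union_le _ _).trans ?_)
      · by_contra hv'
        simp [hv'] at hv
      · have := card_image_le (s := range t) (f := x)
        have := card_image_le (s := range t) (f := y)
        simp only [card_range] at *
        omega
  · push Not at hall
    obtain ⟨s, hs⟩ := hall
    let S := s.map (Embedding.subtype _)
    have mS : ∀ v, v ∈ S ↔ ∃ h : v ∉ T, ⟨v, h⟩ ∈ s := fun v => by simp [S]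
    have hc : S.card = s.card := card_map _
    have u1 : S.erase (x t) ⊆ s.biUnion nb := fun v hv => by
      obtain ⟨a1, a2⟩ := mem_erase.1 hv
      obtain ⟨a3, a4⟩ := (mS v).1 a2
      refine mem_biUnion.2 ⟨_, a4, mem_sdiff.2 ⟨by simp, fun h => ?_⟩⟩
      rcases w3 v h with h | ⟨i, -, hi, h⟩
      exacts [a1 h, a3 ((mT _).2 ⟨i, hi, h⟩)]
    have u2 : x t ∈ S := by
      by_contra h
      rw [erase_eq_of_notMem h] at u1
      have := card_le_card u1
      omega
    have u3 := Finset.eq_of_subset_of_card_le u1 (by rw [card_erase_of_mem u2]; omega)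
    refine ⟨S, u2, fun h => ((mS _).1 h).1 ((mT _).2 ⟨0, ht, Or.inl rfl⟩), fun v hv v' hv' => ?_⟩
    by_cases h : v' ∈ T'
    · rcases w3 v' h with h | h
      exacts [Or.inl (h ▸ u2), Or.inr h]
    · obtain ⟨a3, a4⟩ := (mS v).1 hv
      refine Or.inl (mem_of_mem_erase (a := x t) ?_)
      rw [u3]
      refine mem_biUnion.2 ⟨_, a4, mem_sdiff.2 ⟨?_, h⟩⟩
      rcases hv' with rfl | rfl <;> simp

/-- The walk from `v` that follows the word `ω`. -/
def pos (α β : Equiv.Perm V) (ω : ℕ → Bool) (v : V) : ℕ → V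
  | 0 => v
  | i + 1 => (if ω i then α else β) (pos α β ω v i)

omit [Fintype V] [DecidableEq V] in
theorem pos_E (ω : ℕ → Bool) (v : V) (i : ℕ) : E α β (pos α β ω v i) (pos α β ω v (i + 1)) := by
  unfold E
  cases h : ω i <;> simp [pos, h]

omit [Fintype V] [DecidableEq V] in
theorem pos_inj (ω : ℕ → Bool) (i : ℕ) : Injective fun v => pos α β ω v i := by
  induction i with
  | zero => exact injective_id
  | succ i ih => exact fun a b h => ih (Equiv.injective _ h)

omit [Fintype V] in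
theorem survive (Y : Finset V) {e t : ℕ} (ha : o1 α Y ≤ e) (hb : o1 β Y ≤ e) (h : t * e < Y.card)
    (ω : ℕ → Bool) : ∃ v, ∀ j ≤ t, pos α β ω v j ∈ Y := by
  have key : ∀ i, Y.card ≤ (Y.filter fun v => ∀ j ≤ i, pos α β ω v j ∈ Y).card + i * e := by
    intro i
    induction i with
    | zero =>
      rw [Finset.filter_true_of_mem]
      · omega
      · intro v hv j hj; rwa [Nat.le_zero.1 hj]
    | succ i ih =>
      have h1 : o1 (if ω i then α else β) Y ≤ e := by split_ifs <;> assumption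
      have h2 := Finset.card_filter_add_card_filter_not
        (s := Y.filter fun v => ∀ j ≤ i, pos α β ω v j ∈ Y) fun v => pos α β ω v (i + 1) ∈ Y
      have h3 : ((Y.filter fun v => ∀ j ≤ i, pos α β ω v j ∈ Y).filter
          fun v => pos α β ω v (i + 1) ∉ Y).card ≤ o1 (if ω i then α else β) Y := by
        refine Finset.card_le_card_of_injOn (fun v => pos α β ω v i) (fun v hv => ?_)
          (pos_inj ω i).injOn
        simp only [coe_filter, mem_filter, Set.mem_setOf_eq] at hv ⊢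
        exact ⟨hv.1.2 i le_rfl, hv.2⟩
      have h4 : ((Y.filter fun v => ∀ j ≤ i, pos α β ω v j ∈ Y).filter
          fun v => pos α β ω v (i + 1) ∈ Y).card ≤
          (Y.filter fun v => ∀ j ≤ i + 1, pos α β ω v j ∈ Y).card := by
        refine Finset.card_le_card fun v hv => ?_
        simp only [mem_filter] at hv ⊢
        refine ⟨hv.1.1, fun j hj => ?_⟩
        rcases hj.lt_or_eq with hj | rfl
        exacts [hv.1.2 j (by omega), hv.2]
      rw [add_mul]
      omega
  obtain ⟨v, hv⟩ := Finset.card_pos.1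
    (show 0 < (Y.filter fun v => ∀ j ≤ t, pos α β ω v j ∈ Y).card by have := key t; omega)
  exact ⟨v, (mem_filter.1 hv).2⟩

theorem two_walks (hs : Simple α β) (Y : Finset V) {e t : ℕ} (ha : o1 α Y ≤ e) (hb : o1 β Y ≤ e)
    (h : t * e < Y.card) (hN : Fintype.card V ^ 2 < 2 ^ t) :
    ∃ x y : ℕ → V, (∀ i < t, E α β (x i) (x (i + 1))) ∧ (∀ i < t, E α β (y i) (y (i + 1))) ∧
      x 0 = y 0 ∧ x t = y t ∧ (∃ i ≤ t, x i ≠ y i) ∧ x 0 ∈ Y ∧ x t ∈ Y := by
  choose st hst using survive Y ha hb h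
  let w : (Fin t → Bool) → ℕ → Bool := fun ω i => if h : i < t then ω ⟨i, h⟩ else false
  obtain ⟨ω, ω', hne, he⟩ := Fintype.exists_ne_map_eq_of_card_lt
    (fun ω : Fin t → Bool => (st (w ω), pos α β (w ω) (st (w ω)) t)) (by simpa [sq] using hN)
  simp only [Prod.mk.injEq] at he
  refine ⟨pos α β (w ω) (st (w ω)), pos α β (w ω') (st (w ω')), fun i _ => pos_E _ _ _,
    fun i _ => pos_E _ _ _, he.1, he.2, ?_, hst _ 0 (Nat.zero_le _), hst _ t le_rfl⟩
  by_contra hc
  push Not at hc
  refine hne (funext fun i => ?_)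
  have a1 := hc (i + 1) i.2
  simp only [pos] at a1
  rw [hc i i.2.le] at a1
  have a2 := (hs (pos α β (w ω') (st (w ω')) i)).2.2
  simp only [w, i.2, dif_pos, Fin.eta] at a1 a2
  cases h1 : ω i <;> cases h2 : ω' i <;> simp_all

theorem short_large (hs : Simple α β) {t Q : ℕ} (ht : 0 < t) (hN : Fintype.card V ^ 2 < 2 ^ t)
    {Z : Finset V} (H : Min α β (96 * t) Q (4 * t * Q) Z) (ho : out α β Z ≤ 12 * t)
    (hZ : 396 * t * t ≤ Z.card) (hn : ¬ Short α β (97 * t)) : False := by
  have ht2 : t ≤ t * t := Nat.le_mul_self t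
  rw [mul_assoc] at hZ
  obtain ⟨C, hC, hC'⟩ := H.core (by omega) (by omega)
  obtain ⟨D, hD, hD'⟩ := H.inv.core (by omega) (by omega)
  have hCD := card_union_le C D
  have e1 : ∀ a : Equiv.Perm V, o1 a (Z \ (C ∪ D)) ≤ o1 a Z + (C ∪ D).card := fun a => by
    rw [← Finset.card_image_of_injective (C ∪ D) a⁻¹.injective]
    refine (Finset.card_le_card fun v hv => ?_).trans (card_union_le _ _)
    rw [mem_union, mem_image]
    simp only [mem_filter, mem_sdiff] at hv ⊢
    by_cases hz : a v ∈ Z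
    · exact Or.inr ⟨a v, by tauto, by simp⟩
    · tauto
  have e2 := Finset.le_card_sdiff (C ∪ D) Z
  have e3 := e1 α
  have e4 := e1 β
  unfold out at ho
  obtain ⟨x, y, hx, hy, h0, h1, hne, hu, hw⟩ := two_walks hs (Z \ (C ∪ D)) (e := 204 * t)
    (by omega) (by omega) (by rw [mul_left_comm]; omega) hN
  have hn1 : ¬ Short α β t := fun h => hn (h.mono (by omega))
  have hxi := walk_inj hs hx hn1
  have hyi := walk_inj hs hy hn1
  obtain ⟨S, s1, s2, s3⟩ := theta hx hy hxi hyi h0 h1 hne fun h => hn (h.mono (by omega))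
  simp only [mem_sdiff, mem_union, not_or] at hu hw
  have l1 : ∀ v, (∃ i, 0 < i ∧ i < t ∧ (v = x i ∨ v = y i)) →
      Lnk α β t v (x t) ∧ v ≠ x t ∧ Lnk α β t (x 0) v ∧ v ≠ x 0 := by
    rintro v ⟨i, i0, it, rfl | rfl⟩
    · have a1 := lnk_walk hx (i := i) (t - i) (by omega)
      have a2 := lnk_walk hx (i := 0) i (by omega)
      rw [show i + (t - i) = t by omega] at a1
      rw [zero_add] at a2
      exact ⟨a1.mono (by omega), fun h => by have := hxi _ it.le _ le_rfl h; omega,
        a2.mono it.le, fun h => by have := hxi _ it.le _ ht.le h; omega⟩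
    · have a1 := lnk_walk hy (i := i) (t - i) (by omega)
      have a2 := lnk_walk hy (i := 0) i (by omega)
      rw [show i + (t - i) = t by omega] at a1
      rw [zero_add] at a2
      rw [h0, h1]
      exact ⟨a1.mono (by omega), fun h => by have := hyi _ it.le _ le_rfl h; omega,
        a2.mono it.le, fun h => by have := hyi _ it.le _ ht.le h; omega⟩
  have b1 : ball α β Z (x t) (96 * t) ⊆ Z ∩ S := fun v hv =>
    (ball_ind (fun j v => Lnk α β j (x t) v ∧ (j ≤ 96 * t → v ∈ Z ∩ S))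
      ⟨Lnk.refl _, fun _ => mem_inter.2 ⟨hw.1, s1⟩⟩
      (fun j v h => ⟨h.1.mono (by omega), fun hj => h.2 (by omega)⟩)
      (fun j v v' h hE hz => ⟨h.1.trans (Lnk.single hE), fun hj => mem_inter.2 ⟨hz,
        (s3 v (mem_inter.1 (h.2 (by omega))).2 v' hE).resolve_right fun hi => by
          obtain ⟨a1, a2, -⟩ := l1 v' hi
          exact hn ((Lnk.short hs a1 (h.1.trans (Lnk.single hE)) a2).mono (by omega))⟩⟩)
      _ v hv).2 le_rfl
  have b2 : ball α⁻¹ β⁻¹ Z (x 0) (96 * t) ⊆ Z \ S := fun v hv =>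
    (ball_ind (fun j v => Lnk α β j v (x 0) ∧ (j ≤ 96 * t → v ∈ Z \ S))
      ⟨Lnk.refl _, fun _ => mem_sdiff.2 ⟨hu.1, s2⟩⟩
      (fun j v h => ⟨h.1.mono (by omega), fun hj => h.2 (by omega)⟩)
      (fun j v v' h hE hz => ⟨((Lnk.single (E_inv.1 hE)).trans h.1).mono (by omega),
        fun hj => mem_sdiff.2 ⟨hz, fun hv' => by
          rcases s3 v' hv' v (E_inv.1 hE) with hi | hi
          · exact (mem_sdiff.1 (h.2 (by omega))).2 hi
          · obtain ⟨-, -, a1, a2⟩ := l1 v hi
            exact hn ((Lnk.short hs h.1 a1 a2).mono (by omega))⟩⟩)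
      _ v hv).2 le_rfl
  have c1 := (hC' _ hw.1 hw.2.1).trans (card_le_card b1)
  have c2 := (hD' _ hu.1 hu.2.2).trans (card_le_card b2)
  have c3 := H.out_lt (S := Z ∩ S)
    ⟨inter_subset_left, fun h => s2 (mem_inter.1 (h hu.1)).2⟩ c1
  have c4 := H.mn (Z \ S) ⟨sdiff_subset, fun h => (mem_sdiff.1 (h hw.1)).2 s1⟩ c2
  have c5 : 8 * t < out α β (Z \ S) := by
    refine Nat.lt_of_mul_lt_mul_left (a := Q) ?_
    have : Q * (8 * t) = 2 * (4 * t * Q) := by ring
    omega
  have c6 := out_split (α := α) (β := β) Z S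
  have c7 : ∀ a : Equiv.Perm V, (∀ v, E α β v (a v)) → o1 a S ≤ 2 * t := fun a ha => by
    have d1 := card_image_le (s := range t) (f := x)
    have d2 := card_image_le (s := range t) (f := y)
    have d3 := card_union_le ((range t).image x) ((range t).image y)
    have d4 : o1 a S ≤ ((range t).image x ∪ (range t).image y).card := by
      refine Finset.card_le_card_of_injOn a (fun v hv => ?_) a.injective.injOn
      simp only [coe_filter, Set.mem_setOf_eq] at hv
      obtain ⟨i, -, it, h⟩ := (s3 v hv.1 _ (ha v)).resolve_left hv.2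
      simp only [coe_union, coe_image, coe_range, Set.mem_union, Set.mem_image, Set.mem_Iio]
      exact h.imp (fun h => ⟨i, it, h.symm⟩) fun h => ⟨i, it, h.symm⟩
    rw [card_range] at d1 d2
    omega
  have c8 := c7 α fun _ => Or.inl rfl
  have c9 := c7 β fun _ => Or.inr rfl
  unfold out at c6 c3 c5
  omega

/-- The main combinatorial theorem. -/
theorem short_log [Nonempty V] (hs : Simple α β) {t : ℕ} (hN : Fintype.card V ^ 2 < 2 ^ t) :
    Short α β (1000 * t) := by
  have ht : 0 < t := by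
    rcases Nat.eq_zero_or_pos t with rfl | h
    · have := Fintype.card_pos (α := V)
      have : 0 < Fintype.card V ^ 2 := by positivity
      omega
    · exact h
  by_contra hn
  by_cases hV : Fintype.card V < 96 * t
  · exact hn ((short_of_closed hs univ_nonempty fun w _ => ⟨α w, mem_univ _, Or.inl rfl⟩).mono
      (by rw [card_univ]; omega))
  obtain ⟨Z, hZ, hmin⟩ := Finset.exists_min_image
    (univ.filter fun Z : Finset V => 96 * t ≤ Z.card ∧
      100 * t * out α β Z + min Z.card (4 * t * (100 * t)) ≤ 3 * (4 * t * (100 * t))) Finset.card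
    ⟨univ, by
      simp only [mem_filter, mem_univ, true_and, card_univ, out, o1, not_true, filter_false,
        card_empty]
      omega⟩
  simp only [mem_filter, mem_univ, true_and] at hZ hmin
  have H : Min α β (96 * t) (100 * t) (4 * t * (100 * t)) Z := ⟨hZ.2, fun S h1 h2 => by
    by_contra h
    have := hmin S ⟨h2, by omega⟩
    have := card_lt_card h1
    omega⟩
  have h0 : out α β Z < 12 * t := by
    refine Nat.lt_of_mul_lt_mul_left (a := 100 * t) ?_
    have : 100 * t * (12 * t) = 3 * (4 * t * (100 * t)) := by ring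
    have : 0 < 4 * t * (100 * t) := by positivity
    omega
  by_cases h1 : Z.card < 2 * (96 * t)
  · exact hn ((short_of_small hs Z le_rfl (by omega)).mono (by omega))
  by_cases h2 : Z.card ≤ 4 * t * (100 * t)
  · obtain ⟨C, hC, hC'⟩ := H.core (by omega) (by omega)
    obtain ⟨D, hD, hD'⟩ := H.inv.core (by omega) (by omega)
    have e1 := card_union_le C D
    have e2 := Finset.le_card_sdiff (C ∪ D) Z
    obtain ⟨v, hv⟩ := Finset.card_pos.1 (show 0 < (Z \ (C ∪ D)).card by omega)
    simp only [mem_sdiff, mem_union, not_or] at hv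
    have a1 := H.half (by omega) h2 (by omega) hv.1 (hC' v hv.1 hv.2.1)
    have a2 := H.inv.half (by omega) h2 (by omega) hv.1 (hD' v hv.1 hv.2.2)
    have a3 := Finset.card_union_add_card_inter (ball α β Z v (96 * t + 4 * (100 * t)))
      (ball α⁻¹ β⁻¹ Z v (96 * t + 4 * (100 * t)))
    have a4 := card_le_card (union_subset
      (ball_subset (α := α) (β := β) hv.1 (96 * t + 4 * (100 * t)))
      (ball_subset (α := α⁻¹) (β := β⁻¹) hv.1 (96 * t + 4 * (100 * t))))
    obtain ⟨y, hy, hyv⟩ := Finset.exists_mem_ne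
      (s := ball α β Z v (96 * t + 4 * (100 * t)) ∩ ball α⁻¹ β⁻¹ Z v (96 * t + 4 * (100 * t)))
      (by omega) v
    exact hn ((Lnk.short hs (ball_lnk _ y (mem_inter.1 hy).1) (ball_lnk_inv _ y (mem_inter.1 hy).2)
      hyv.symm).mono (by omega))
  · refine short_large hs ht hN H h0.le ?_ fun h => hn (h.mono (by omega))
    have : 4 * t * (100 * t) = 400 * (t * t) := by ring
    rw [mul_assoc]
    omega

end Pool.Agent.P.MP_cb63a5_lc.Cub
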