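import Pool.Agent.P.MP_cb63a5_lc.Member

/-! A polynomial-time test for a permutation inside a Boolean matrix (augmenting paths). -/

namespace Pool.Agent.P.MP_cb63a5_lc.Cub

open Pool.Agent.Lib.NP Polynomial Function

theorem iter_closed {σ : Type} (g : σ → σ) (I P : σ → Prop) (μ : σ → ℕ) (B : ℕ) (s0 : σ)
    (h0 : I s0) (hI : ∀ s, I s → I (g s)) (hB : ∀ s, μ s ≤ B)
    (h2 : ∀ s, ¬ P s → μ s < μ (g s)) (h3 : ∀ s, P s → P (g s)) :
    I (g^[B + 1] s0) ∧ P (g^[B + 1] s0) := by
  have key : ∀ k, I (g^[k] s0) ∧ (P (g^[k] s0) ∨ k ≤ μ (g^[k] s0)) := by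
    intro k
    induction k with
    | zero => exact ⟨h0, Or.inr (Nat.zero_le _)⟩
    | succ k ih =>
      rw [iterate_succ_apply']
      refine ⟨hI _ ih.1, ?_⟩
      by_cases h : P (g^[k] s0)
      · exact Or.inl (h3 _ h)
      · have := h2 _ h
        have := ih.2.resolve_left h
        exact Or.inr (by omega)
  refine ⟨(key _).1, (key _).2.resolve_right ?_⟩
  have := hB (g^[B + 1] s0)
  omega

theorem getD_map_range {α : Type} (g : ℕ → α) {k r : ℕ} (h : r < k) (d : α) :
    ((List.range k).map g).getD r d = g r := by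
  simp [h]

abbrev Mat := List (List Bool)

def ok (O : Mat) (a b : ℕ) : Bool := ent O a b && decide (b < O.length)

def val (O : Mat) (m : List ℕ) (r : ℕ) : ℕ := m.getD r O.length

def slide (O : Mat) (k a a' : ℕ) (m : List ℕ) : List ℕ :=
  (List.range (k + 1)).map fun r =>
    min (if r = a then val O m a' else if r = a' then O.length else val O m r) O.length

def cands (O : Mat) (k : ℕ) (F : List (List (List ℕ))) (a' : ℕ) : List (List ℕ) :=
  (List.range (k + 1)).flatMap fun a => (F.getD a []).flatMap fun m =>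
    bif ok O a (val O m a') then [slide O k a a' m] else []

def fstep (O : Mat) (k : ℕ) (F : List (List (List ℕ))) : List (List (List ℕ)) :=
  (List.range (k + 1)).map fun a' => (F.getD a' [] ++ cands O k F a').take 1

def fzero (O : Mat) (k : ℕ) (m : List ℕ) : List (List (List ℕ)) :=
  (List.range (k + 1)).map fun a => if a = k then
    [(List.range (k + 1)).map fun r => min (if r = k then O.length else val O m r) O.length]
    else []

def ffin (O : Mat) (k : ℕ) (F : List (List (List ℕ))) : List (List ℕ) :=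
  ((List.range (k + 1)).flatMap fun a => (F.getD a []).flatMap fun m =>
    (List.range O.length).flatMap fun b =>
      bif ok O a b && !((List.range (k + 1)).any fun r => val O m r == b) then
        [(List.range (k + 1)).map fun r => min (if r = a then b else val O m r) O.length]
      else []).take 1

def aug (O : Mat) (k : ℕ) (m : List ℕ) : List (List ℕ) :=
  ffin O k ((fstep O k)^[k + 1 + 1] (fzero O k m))

def hasPerm (O : Mat) : Bool :=
  !((List.range O.length).foldl (fun R k => (R.flatMap fun m => aug O k m).take 1) [[]]).isEmpty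

theorem ok_lt {O : Mat} {a b : ℕ} (h : ok O a b = true) : b < O.length := by
  simp only [ok, Bool.and_eq_true, decide_eq_true_eq] at h; exact h.2

/-- `g` matches the rows up to `k`, except `a`. -/
def Val (O : Mat) (k a : ℕ) (g : ℕ → ℕ) : Prop :=
  (∀ r ≤ k, r ≠ a → ok O r (g r) = true) ∧
    ∀ r ≤ k, ∀ r' ≤ k, r ≠ a → r' ≠ a → g r = g r' → r = r'

def Inv (O : Mat) (k : ℕ) (g0 : ℕ → ℕ) (F : List (List (List ℕ))) : Prop :=
  F.getD k [] ≠ [] ∧ ∀ a ≤ k, ∀ m ∈ F.getD a [], Val O k a (val O m) ∧ val O m a = O.length ∧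
    (∀ r ≤ k, F.getD r [] = [] → val O m r = g0 r) ∧
    ∀ r ≤ k, r ≠ a → ∃ r0 < k, g0 r0 = val O m r

def Cls (O : Mat) (k : ℕ) (F : List (List (List ℕ))) : Prop :=
  ∀ a' ≤ k, F.getD a' [] = [] → ∀ a ≤ k, ∀ m ∈ F.getD a [], ok O a (val O m a') = false

section

variable {O : Mat} {k : ℕ} {F : List (List (List ℕ))} {g0 : ℕ → ℕ}

theorem mem_cands {a' : ℕ} {m : List ℕ} : m ∈ cands O k F a' ↔
    ∃ a ≤ k, ∃ m1 ∈ F.getD a [], ok O a (val O m1 a') = true ∧ m = slide O k a a' m1 := by
  simp only [cands, List.mem_flatMap, List.mem_range, Nat.lt_succ_iff]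
  refine exists_congr fun a => and_congr_right fun _ => exists_congr fun m1 =>
    and_congr_right fun _ => ?_
  cases ok O a (val O m1 a') <;> simp

theorem fstep_getD {r : ℕ} (h : r ≤ k) :
    (fstep O k F).getD r [] = (F.getD r [] ++ cands O k F r).take 1 :=
  getD_map_range _ (Nat.lt_succ_of_le h) _

theorem fstep_nil {r : ℕ} (h : r ≤ k) :
    (fstep O k F).getD r [] = [] ↔ F.getD r [] = [] ∧ cands O k F r = [] := by
  rw [fstep_getD h]; simp

theorem Inv.step (H : Inv O k g0 F) : Inv O k g0 (fstep O k F) := by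
  refine ⟨fun h => H.1 ((fstep_nil le_rfl).1 h).1, fun a' ha' m hm => ?_⟩
  have hne : (fstep O k F).getD a' [] ≠ [] := List.ne_nil_of_mem hm
  rw [fstep_getD ha'] at hm
  rcases List.mem_append.1 (List.mem_of_mem_take hm) with hm | hm
  · obtain ⟨h1, h2, h3, h4⟩ := H.2 a' ha' m hm
    exact ⟨h1, h2, fun r hr h => h3 r hr ((fstep_nil hr).1 h).1, h4⟩
  · obtain ⟨a, ha, m1, hm1, hok, rfl⟩ := mem_cands.1 hm
    obtain ⟨h1, h2, h3, h4⟩ := H.2 a ha m1 hm1
    have hlt := ok_lt hok
    have haa : a' ≠ a := fun h => by rw [h, h2] at hlt; omega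
    have v : ∀ r ≤ k, val O (slide O k a a' m1) r =
        if r = a then val O m1 a' else if r = a' then O.length else val O m1 r := fun r hr => by
      rw [val, slide, getD_map_range _ (Nat.lt_succ_of_le hr)]
      split_ifs with e1 e2
      · omega
      · omega
      · have := ok_lt (h1.1 r hr e1); omega
    refine ⟨⟨fun r hr h => ?_, fun r hr r' hr' h h' e => ?_⟩, by rw [v _ ha', if_neg haa, if_pos rfl],
      fun r hr h => ?_, fun r hr h => ?_⟩
    · rw [v r hr]
      split_ifs with e1
      · rwa [e1]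
      · exact h1.1 r hr e1
    · rw [v r hr, v r' hr', if_neg h, if_neg h'] at e
      split_ifs at e with e1 e2 e2
      · rw [e1, e2]
      · exact absurd (h1.2 _ ha' _ hr' haa e2 e).symm h'
      · exact absurd (h1.2 _ hr _ ha' e1 haa e) h
      · exact h1.2 _ hr _ hr' e1 e2 e
    · have e1 : r ≠ a := fun e => List.ne_nil_of_mem hm1 (e ▸ ((fstep_nil hr).1 h).1)
      have e2 : r ≠ a' := fun e => hne (e ▸ h)
      rw [v r hr, if_neg e1, if_neg e2]
      exact h3 r hr ((fstep_nil hr).1 h).1
    · rw [v r hr, if_neg h]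
      split_ifs with e1
      exacts [h4 a' ha' haa, h4 r hr e1]

theorem cands_nil {a' : ℕ} : cands O k F a' = [] ↔
    ∀ a ≤ k, ∀ m ∈ F.getD a [], ok O a (val O m a') = false := by
  rw [List.eq_nil_iff_forall_not_mem]
  simp only [mem_cands]
  constructor
  · intro h a ha m hm
    by_contra hc
    exact h _ ⟨a, ha, m, hm, by simpa using hc, rfl⟩
  · rintro h _ ⟨a, ha, m, hm, h1, -⟩
    simp [h a ha m hm] at h1

theorem Cls.step (H : Cls O k F) : Cls O k (fstep O k F) := by
  intro a' ha' h a ha m hm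
  refine H a' ha' ((fstep_nil ha').1 h).1 a ha m ?_
  rw [fstep_getD ha] at hm
  cases e : F.getD a [] with
  | nil => rw [e, cands_nil.2 (H a ha e)] at hm; simp at hm
  | cons x l => rw [e] at hm; simp at hm; simp [hm]

theorem final_inv {m : List ℕ} (h : Val O k k (val O m)) :
    Inv O k (val O m) ((fstep O k)^[k + 1 + 1] (fzero O k m)) ∧
      Cls O k ((fstep O k)^[k + 1 + 1] (fzero O k m)) := by
  classical
  refine iter_closed _ _ _ (fun F => ((Finset.range (k + 1)).filter fun r => F.getD r [] ≠ []).card)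
    _ _ ⟨?_, fun a ha m' hm' => ?_⟩ (fun _ => Inv.step)
    (fun F => (Finset.card_filter_le _ _).trans (by simp)) (fun F hF => ?_) fun _ => Cls.step
  · rw [fzero, getD_map_range _ (Nat.lt_succ_self k)]; simp
  · rw [fzero, getD_map_range _ (Nat.lt_succ_of_le ha)] at hm'
    split_ifs at hm' with e
    · subst e
      rw [List.mem_singleton] at hm'
      have v : ∀ r ≤ a, val O m' r = if r = a then O.length else val O m r := fun r hr => by
        rw [hm', val, getD_map_range _ (Nat.lt_succ_of_le hr)]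
        split_ifs with e
        · omega
        · have := ok_lt (h.1 r hr e); omega
      refine ⟨⟨fun r hr e => ?_, fun r hr r' hr' e e' => ?_⟩, by rw [v _ le_rfl, if_pos rfl],
        fun r hr e => ?_, fun r hr e => ⟨r, by omega, by rw [v r hr, if_neg e]⟩⟩
      · rw [v r hr, if_neg e]; exact h.1 r hr e
      · rw [v r hr, v r' hr', if_neg e, if_neg e']; exact h.2 r hr r' hr' e e'
      · rw [v r hr, if_neg]
        rintro rfl
        rw [fzero, getD_map_range _ (Nat.lt_succ_self r)] at e
        simp at e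
    · simp at hm'
  · simp only [Cls, ← cands_nil] at hF
    push Not at hF
    obtain ⟨a', ha', h1, h2⟩ := hF
    refine Finset.card_lt_card ⟨fun r hr => ?_, fun hc => ?_⟩
    · simp only [Finset.mem_filter, Finset.mem_range, Nat.lt_succ_iff] at hr ⊢
      exact ⟨hr.1, fun e => hr.2 ((fstep_nil hr.1).1 e).1⟩
    · have := hc (x := a') (by
        simp only [Finset.mem_filter, Finset.mem_range, Nat.lt_succ_iff]
        exact ⟨ha', fun e => h2 ((fstep_nil ha').1 e).2⟩)
      exact (Finset.mem_filter.1 this).2 h1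

theorem aug_sound {m m' : List ℕ} (h : Val O k k (val O m)) (hm : m' ∈ aug O k m) :
    Val O (k + 1) (k + 1) (val O m') := by
  have H := (final_inv h).1
  have hm := List.mem_of_mem_take hm
  simp only [List.mem_flatMap, List.mem_range, Nat.lt_succ_iff] at hm
  obtain ⟨a, ha, m1, hm1, b, hb, hm⟩ := hm
  obtain ⟨h1, -⟩ := H.2 a ha m1 hm1
  cases e : ok O a b && !((List.range (k + 1)).any fun r => val O m1 r == b) <;>
    rw [e] at hm <;> simp only [cond_false, cond_true, List.not_mem_nil, List.mem_singleton] at hm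
  simp only [Bool.and_eq_true, Bool.not_eq_true', List.any_eq_false, List.mem_range,
    Nat.lt_succ_iff, beq_iff_eq] at e
  have v : ∀ r ≤ k, val O m' r = if r = a then b else val O m1 r := fun r hr => by
    rw [hm, val, getD_map_range _ (Nat.lt_succ_of_le hr)]
    split_ifs with e
    · omega
    · have := ok_lt (h1.1 r hr e); omega
  refine ⟨fun r hr hr' => ?_, fun r hr r' hr' a1 a2 a3 => ?_⟩
  · rw [v r (by omega)]
    split_ifs with e1
    · exact e1 ▸ e.1
    · exact h1.1 r (by omega) e1
  · rw [v r (by omega), v r' (by omega)] at a3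
    split_ifs at a3 with e1 e2 e2
    · rw [e1, e2]
    · exact absurd a3.symm (e.2 r' (by omega))
    · exact absurd a3 (e.2 r (by omega))
    · exact h1.2 _ (by omega) _ (by omega) e1 e2 a3

theorem aug_complete {m : List ℕ} (h : Val O k k (val O m)) (hm : aug O k m = []) {σ : ℕ → ℕ}
    (hσ : Val O (k + 1) (k + 1) σ) : False := by
  classical
  obtain ⟨H, C⟩ := final_inv h
  unfold aug ffin at hm
  generalize (fstep O k)^[k + 1 + 1] (fzero O k m) = F at H C hm
  simp only [List.take_eq_nil_iff, one_ne_zero, false_or, List.flatMap_eq_nil_iff, List.mem_range,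
    Nat.lt_succ_iff] at hm
  have key : ∀ a, ∃ r0, a ≤ k → F.getD a [] ≠ [] →
      r0 < k ∧ F.getD r0 [] ≠ [] ∧ val O m r0 = σ a := fun a => by
    by_cases ha : a ≤ k ∧ F.getD a [] ≠ []
    · obtain ⟨m1, hm1⟩ := List.exists_mem_of_ne_nil _ ha.2
      obtain ⟨h1, h2, h3, h4⟩ := H.2 a ha.1 m1 hm1
      have b1 := hσ.1 a (by omega) (by omega)
      have b2 := hm a ha.1 m1 hm1 (σ a) (ok_lt b1)
      have b3 : ∃ r ≤ k, val O m1 r = σ a := by
        by_contra hc
        have : ((List.range (k + 1)).any fun r => val O m1 r == σ a) = false := by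
          simpa [Nat.lt_succ_iff] using hc
        simp [b1, this] at b2
      obtain ⟨r, hr, hr'⟩ := b3
      have b4 : r ≠ a := fun e => by have := ok_lt b1; rw [← hr', e, h2] at this; omega
      have b5 : F.getD r [] ≠ [] := fun e => by
        have := C r hr e a ha.1 m1 hm1
        rw [hr', b1] at this
        simp at this
      obtain ⟨r0, b6, b7⟩ := h4 r hr b4
      refine ⟨r0, fun _ _ => ⟨b6, fun e => ?_, b7.trans hr'⟩⟩
      have := h1.2 r0 b6.le r hr (fun e' => ha.2 (e' ▸ e)) b4 ((h3 r0 b6.le e).trans b7)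
      exact b5 (this ▸ e)
    · exact ⟨0, fun a1 a2 => absurd ⟨a1, a2⟩ ha⟩
  choose ρ hρ using key
  let S := (Finset.range (k + 1)).filter fun r => F.getD r [] ≠ []
  have mS : ∀ r, r ∈ S ↔ r ≤ k ∧ F.getD r [] ≠ [] := fun r => by
    simp only [S, Finset.mem_filter, Finset.mem_range, Nat.lt_succ_iff]
  have hk : k ∈ S := (mS k).2 ⟨le_rfl, H.1⟩
  have := Finset.card_le_card_of_injOn (s := S) (t := S.erase k) ρ (fun a ha => by
    obtain ⟨a1, a2⟩ := (mS a).1 ha
    obtain ⟨b1, b2, -⟩ := hρ a a1 a2
    exact Finset.mem_coe.2 (Finset.mem_erase.2 ⟨b1.ne, (mS _).2 ⟨b1.le, b2⟩⟩))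
    fun a ha a' ha' e => by
      obtain ⟨a1, a2⟩ := (mS a).1 ha
      obtain ⟨a3, a4⟩ := (mS a').1 ha'
      refine hσ.2 a (by omega) a' (by omega) (by omega) (by omega) ?_
      rw [← (hρ a a1 a2).2.2, ← (hρ a' a3 a4).2.2, e]
  have := Finset.card_erase_lt_of_mem hk
  omega

end

theorem hasPerm_iff (O : Mat) : hasPerm O = true ↔ ∃ σ, Val O O.length O.length σ := by
  have key : ∀ k ≤ O.length, (∀ m ∈ (List.range k).foldl
      (fun R k => (R.flatMap fun m => aug O k m).take 1) [[]], Val O k k (val O m)) ∧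
      ((List.range k).foldl (fun R k => (R.flatMap fun m => aug O k m).take 1) [[]] = [] →
        ¬ ∃ σ, Val O O.length O.length σ) := by
    intro k hk
    induction k with
    | zero => exact ⟨fun m _ => ⟨by omega, by omega⟩, by simp⟩
    | succ k ih =>
      obtain ⟨h1, h2⟩ := ih (by omega)
      rw [List.range_succ, List.foldl_append, List.foldl_cons, List.foldl_nil]
      generalize (List.range k).foldl (fun R k => (R.flatMap fun m => aug O k m).take 1) [[]] = R
        at h1 h2
      refine ⟨fun m hm => ?_, fun h => ?_⟩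
      · obtain ⟨m0, a1, a2⟩ := List.mem_flatMap.1 (List.mem_of_mem_take hm)
        exact aug_sound (h1 m0 a1) a2
      · simp only [List.take_eq_nil_iff, one_ne_zero, false_or, List.flatMap_eq_nil_iff] at h
        cases R with
        | nil => exact h2 rfl
        | cons m0 R =>
          rintro ⟨σ, hσ⟩
          exact aug_complete (h1 m0 (by simp)) (h m0 (by simp)) (σ := σ)
            ⟨fun r a1 a2 => hσ.1 r (by omega) (by omega),
              fun r a1 r' a2 a3 a4 => hσ.2 r (by omega) r' (by omega) (by omega) (by omega)⟩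
  obtain ⟨h1, h2⟩ := key _ le_rfl
  unfold hasPerm
  generalize (List.range O.length).foldl
    (fun R k => (R.flatMap fun m => aug O k m).take 1) [[]] = R at h1 h2
  cases R with
  | nil => simpa using h2 rfl
  | cons m R => simpa using ⟨_, h1 m (by simp)⟩

theorem sz_mk (g : ℕ → ℕ) (j n : ℕ) :
    sz ((List.range j).map fun r => min (g r) n) ≤ j * (2 * n + 1) := by
  have := sz_list_le ((List.range j).map fun r => min (g r) n) n fun a ha => by
    obtain ⟨r, -, rfl⟩ := List.mem_map.1 ha
    simp
  simpa using this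

def Sm (O : Mat) (k : ℕ) (F : List (List (List ℕ))) : Prop :=
  F.length ≤ k + 1 ∧ ∀ l ∈ F, l.length ≤ 1 ∧ ∀ m ∈ l, sz m ≤ (k + 1) * (2 * O.length + 1)

theorem Sm.step {O : Mat} {k : ℕ} {F : List (List (List ℕ))} (H : Sm O k F) :
    Sm O k (fstep O k F) := by
  refine ⟨by simp [fstep], fun l hl => ?_⟩
  obtain ⟨a', -, rfl⟩ := List.mem_map.1 hl
  refine ⟨by simp, fun m hm => ?_⟩
  rcases List.mem_append.1 (List.mem_of_mem_take hm) with hm | hm
  · rw [List.getD_eq_getElem?_getD] at hm
    cases e : F[a']? with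
    | none => simp [e] at hm
    | some l => rw [e] at hm; exact (H.2 l (List.mem_of_getElem? e)).2 m hm
  · obtain ⟨a, -, m1, -, -, rfl⟩ := mem_cands.1 hm
    exact sz_mk _ _ _

theorem sm_iter (O : Mat) (k : ℕ) (m : List ℕ) (i : ℕ) : Sm O k ((fstep O k)^[i] (fzero O k m)) := by
  induction i with
  | zero =>
    refine ⟨by simp [fzero], fun l hl => ?_⟩
    obtain ⟨a', -, rfl⟩ := List.mem_map.1 hl
    split_ifs
    · exact ⟨by simp, fun m' hm => List.mem_singleton.1 hm ▸ sz_mk _ _ _⟩
    · simp
  | succ i ih => rw [iterate_succ_apply']; exact ih.step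

theorem pt_aug : PT (fun p : Mat × ℕ × List ℕ => aug p.1 p.2.1 p.2.2) := by
  let g : Mat × ℕ × List (List (List ℕ)) → Mat × ℕ × List (List (List ℕ)) :=
    fun p => (p.1, p.2.1, fstep p.1 p.2.1 p.2.2)
  have hg : PT g := by
    unfold g fstep cands slide ok val ent
    fun_prop
  have it : ∀ O k F i, g^[i] (O, k, F) = (O, k, (fstep O k)^[i] F) := fun O k F i => by
    induction i with
    | zero => rfl
    | succ i ih => rw [iterate_succ_apply', iterate_succ_apply', ih]
  have h1 := PT.iterate (n := fun p : Mat × ℕ × List ℕ => p.2.1 + 1 + 1)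
    (s0 := fun p => (p.1, p.2.1, fzero p.1 p.2.1 p.2.2)) hg (by fun_prop)
    (by unfold fzero val; fun_prop)
    (4 * X + 2 + (X + 1) * (2 * (2 * ((X + 1) * (2 * X + 1)) + 1) + 1)) (by
      rintro ⟨O, k, m⟩ i -
      rw [it]
      obtain ⟨a1, a2⟩ := sm_iter O k m i
      generalize (fstep O k)^[i] (fzero O k m) = F at a1 a2
      have b1 := length_le_sz O
      simp only [sz_prod, sz_nat, eval_add, eval_mul, eval_X, eval_one, eval_ofNat]
      generalize hs : 2 * sz O + 1 + (2 * k + 1 + sz m) = s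
      have b2 : (k + 1) * (2 * O.length + 1) ≤ (s + 1) * (2 * s + 1) :=
        Nat.mul_le_mul (by omega) (by omega)
      have b3 := sz_list_le F (2 * ((s + 1) * (2 * s + 1)) + 1) fun l hl => by
        have := sz_list_le l _ fun m hm => ((a2 l hl).2 m hm).trans b2
        exact this.trans ((Nat.mul_le_mul_right _ (a2 l hl).1).trans (by omega))
      have b4 := Nat.mul_le_mul_right (2 * (2 * ((s + 1) * (2 * s + 1)) + 1) + 1)
        (show F.length ≤ s + 1 by omega)
      omega)
  have h2 : PT (fun p : Mat × ℕ × List (List (List ℕ)) => ffin p.1 p.2.1 p.2.2) := by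
    unfold ffin ok val ent
    fun_prop
  exact (h2.comp h1).congr fun p => by rw [it]; rfl

theorem sz_aug {O : Mat} {k : ℕ} {m m' : List ℕ} (h : m' ∈ aug O k m) :
    sz m' ≤ (k + 1) * (2 * O.length + 1) := by
  have hm := List.mem_of_mem_take h
  simp only [List.mem_flatMap] at hm
  obtain ⟨a, -, m1, -, b, -, hm⟩ := hm
  cases e : ok O a b && !((List.range (k + 1)).any fun r => val O m1 r == b) <;>
    rw [e] at hm <;> simp only [cond_false, cond_true, List.not_mem_nil, List.mem_singleton] at hm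
  exact hm ▸ sz_mk _ _ _

theorem pt_hasPerm : PT hasPerm := by
  have h1 : PT (fun q : (Mat × List (List ℕ) × ℕ) × List ℕ => aug q.1.1 q.1.2.2 q.2) :=
    (pt_aug.comp (g := fun q : (Mat × List (List ℕ) × ℕ) × List ℕ => (q.1.1, q.1.2.2, q.2))
      (by fun_prop)).congr fun _ => rfl
  have h2 : PT (fun p : Mat × List (List ℕ) × ℕ => p.2.1.flatMap fun m => aug p.1 p.2.2 m) :=
    PT.flatMap (f := fun (p : Mat × List (List ℕ) × ℕ) (m : List ℕ) => aug p.1 p.2.2 m) h1
      (by fun_prop)
  have h3 : PT (fun p : Mat × List (List ℕ) × ℕ =>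
      (p.2.1.flatMap fun m => aug p.1 p.2.2 m).take 1) := PT.take (PT.const 1) h2
  suffices h : PT (fun O : Mat => (List.range O.length).foldl
      (fun (R : List (List ℕ)) k => (R.flatMap fun m => aug O k m).take 1) [[]]) from
    h.isEmpty.not
  refine PT.foldl (f := fun (O : Mat) (R : List (List ℕ)) (k : ℕ) =>
    (R.flatMap fun m => aug O k m).take 1) h3 (by fun_prop) (by fun_prop)
    (2 * ((X + 1) * (2 * X + 1)) + 1) fun O i => ?_
  have b1 := length_le_sz O
  simp only [eval_add, eval_mul, eval_X, eval_one, eval_ofNat]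
  rcases List.eq_nil_or_concat ((List.range O.length).take i) with h | ⟨l, k, h⟩
  · simp [h]
  · have hk : k < O.length := List.mem_range.1 (List.mem_of_mem_take (i := i) (by simp [h]))
    rw [h, List.concat_eq_append, List.foldl_append, List.foldl_cons, List.foldl_nil]
    refine (sz_list_le _ ((sz O + 1) * (2 * sz O + 1)) fun m hm => ?_).trans
      ((Nat.mul_le_mul_right _ (List.length_take_le 1 _)).trans (by omega))
    obtain ⟨m0, -, hm⟩ := List.mem_flatMap.1 (List.mem_of_mem_take hm)
    exact (sz_aug hm).trans (Nat.mul_le_mul (by omega) (by omega))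

end Pool.Agent.P.MP_cb63a5_lc.Cub
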