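import Pool.Agent.P.MP_cb63a5_lc.Cub.Local

/-! The digraph of two permutations: tools for finding two close perfect matchings. -/

namespace Pool.Agent.P.MP_cb63a5_lc.Cub

open Finset Function

variable {V : Type} [Fintype V] [DecidableEq V] {α β : Equiv.Perm V}

/-- The arcs `v → α v` and `v → β v`. -/
def E (α β : Equiv.Perm V) (v w : V) : Prop := w = α v ∨ w = β v

/-- A perfect matching of the cubic bipartite graph with edges `v - v`, `v - α v`, `v - β v`. -/
def PM (α β : Equiv.Perm V) (τ : V → V) : Prop := Injective τ ∧ ∀ v, τ v = v ∨ E α β v (τ v)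

/-- Two different perfect matchings that differ in at most `L` places. -/
def Short (α β : Equiv.Perm V) (L : ℕ) : Prop :=
  ∃ σ τ, PM α β σ ∧ PM α β τ ∧ σ ≠ τ ∧ (univ.filter fun v => σ v ≠ τ v).card ≤ L

def Simple (α β : Equiv.Perm V) : Prop := ∀ v, α v ≠ v ∧ β v ≠ v ∧ α v ≠ β v

def o1 (a : Equiv.Perm V) (S : Finset V) : ℕ := (S.filter fun v => a v ∉ S).card

/-- The number of arcs that leave `S`. -/
def out (α β : Equiv.Perm V) (S : Finset V) : ℕ := o1 α S + o1 β S

omit [Fintype V] in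
theorem o1_inv (a : Equiv.Perm V) (S : Finset V) : o1 a⁻¹ S = o1 a S := by
  have h1 := Finset.card_filter_add_card_filter_not (s := S) fun v => a v ∈ S
  have h2 := Finset.card_filter_add_card_filter_not (s := S) fun v => a⁻¹ v ∈ S
  have h3 : (S.filter fun v => a v ∈ S).card = (S.filter fun v => a⁻¹ v ∈ S).card := by
    refine Finset.card_bij (fun v _ => a v) (fun v hv => ?_) (fun v _ w _ h => a.injective h)
      fun w hw => ⟨a⁻¹ w, ?_, by simp⟩
    · simpa [and_comm] using hv
    · simpa [and_comm] using hw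
  unfold o1
  omega

omit [Fintype V] in
theorem out_inv (S : Finset V) : out α⁻¹ β⁻¹ S = out α β S := by simp only [out, o1_inv]

omit [Fintype V] [DecidableEq V] in
theorem E_inv {v w : V} : E α⁻¹ β⁻¹ v w ↔ E α β w v := by
  simp only [E, Equiv.Perm.eq_inv_iff_eq, eq_comm]

theorem Short.mono {L L' : ℕ} (h : Short α β L) (hL : L ≤ L') : Short α β L' := by
  obtain ⟨σ, τ, h1, h2, h3, h4⟩ := h
  exact ⟨σ, τ, h1, h2, h3, h4.trans hL⟩

omit [Fintype V] [DecidableEq V] in
theorem Simple.ne (hs : Simple α β) {v w : V} (h : E α β v w) : w ≠ v := by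
  rcases h with rfl | rfl
  exacts [(hs v).1, (hs v).2.1]

theorem short_of_closed (hs : Simple α β) {W : Finset V} (hW : W.Nonempty)
    (h : ∀ w ∈ W, ∃ w' ∈ W, E α β w w') : Short α β W.card := by
  classical
  choose! f hf hf' using h
  obtain ⟨P, hP, hmin⟩ := Finset.exists_min_image
    (W.powerset.filter fun P => P.Nonempty ∧ P.image f ⊆ P) Finset.card
    ⟨W, by simpa [hW, Finset.image_subset_iff] using hf⟩
  simp only [mem_filter, mem_powerset] at hP hmin
  obtain ⟨hPW, hP0, hPf⟩ := hP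
  have hinj : Set.InjOn f P := by
    rw [← Finset.card_image_iff]
    exact le_antisymm Finset.card_image_le
      (hmin _ ⟨hPf.trans hPW, hP0.image f, Finset.image_subset_image hPf⟩)
  have hmem : ∀ v ∈ P, f v ∈ P := fun v hv => hPf (Finset.mem_image_of_mem f hv)
  refine ⟨fun v => if v ∈ P then f v else v, id, ⟨fun a b hab => ?_, fun v => ?_⟩,
    ⟨injective_id, fun _ => Or.inl rfl⟩, fun h => ?_, ?_⟩
  · by_cases ha : a ∈ P <;> by_cases hb : b ∈ P <;> simp only [ha, hb, if_true, if_false] at hab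
    · exact hinj ha hb hab
    · exact absurd (hab ▸ hmem a ha) hb
    · exact absurd (hab ▸ hmem b hb) ha
    · exact hab
  · by_cases hv : v ∈ P
    · simp only [hv, if_true]; exact Or.inr (hf' v (hPW hv))
    · simp [hv]
  · obtain ⟨v, hv⟩ := hP0
    have := congrFun h v
    simp only [hv, if_true, id] at this
    exact hs.ne (hf' v (hPW hv)) this
  · refine Finset.card_le_card fun v hv => ?_
    by_contra hv'
    have : v ∉ P := fun h => hv' (hPW h)
    simp [this] at hv

/-- A weak form of a walk with at most `n` arcs from `a` to `b`. -/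
def Lnk (α β : Equiv.Perm V) (n : ℕ) (a b : V) : Prop :=
  ∃ P : Finset V, P.card ≤ n ∧ (a ∈ P ∨ a = b) ∧ ∀ p ∈ P, ∃ q, (q ∈ P ∨ q = b) ∧ E α β p q

omit [Fintype V] [DecidableEq V] in
theorem Lnk.refl (a : V) : Lnk α β 0 a a := ⟨∅, by simp⟩

omit [Fintype V] [DecidableEq V] in
theorem Lnk.mono {n m : ℕ} {a b : V} (h : Lnk α β n a b) (hn : n ≤ m) : Lnk α β m a b := by
  obtain ⟨P, h1, h2⟩ := h
  exact ⟨P, h1.trans hn, h2⟩

omit [Fintype V] [DecidableEq V] in
theorem Lnk.single {a b : V} (h : E α β a b) : Lnk α β 1 a b :=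
  ⟨{a}, by simp, by simp, fun p hp => ⟨b, Or.inr rfl, by rwa [Finset.mem_singleton.1 hp]⟩⟩

omit [Fintype V] in
theorem Lnk.trans {n m : ℕ} {a b c : V} (h : Lnk α β n a b) (h' : Lnk α β m b c) :
    Lnk α β (n + m) a c := by
  obtain ⟨P, h1, h2, h3⟩ := h
  obtain ⟨P', h4, h5, h6⟩ := h'
  refine ⟨P ∪ P', (Finset.card_union_le _ _).trans (by omega), ?_, fun p hp => ?_⟩
  · rw [mem_union]; rcases h2 with h | rfl <;> tauto
  · rcases mem_union.1 hp with hp | hp
    · obtain ⟨q, hq, hq'⟩ := h3 p hp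
      refine ⟨q, ?_, hq'⟩
      rw [mem_union]; rcases hq with h | rfl <;> tauto
    · obtain ⟨q, hq, hq'⟩ := h6 p hp
      exact ⟨q, by rw [mem_union]; tauto, hq'⟩

theorem Lnk.short (hs : Simple α β) {n m : ℕ} {a b : V} (h : Lnk α β n a b) (h' : Lnk α β m b a)
    (hab : a ≠ b) : Short α β (n + m) := by
  obtain ⟨P, h1, h2, h3⟩ := h
  obtain ⟨P', h4, h5, h6⟩ := h'
  have ha : a ∈ P := h2.resolve_right hab
  have hb : b ∈ P' := h5.resolve_right hab.symm
  refine (short_of_closed hs (W := P ∪ P') ⟨a, mem_union_left _ ha⟩ fun p hp => ?_).mono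
    ((Finset.card_union_le _ _).trans (by omega))
  rcases mem_union.1 hp with hp | hp
  · obtain ⟨q, hq, hq'⟩ := h3 p hp
    refine ⟨q, ?_, hq'⟩
    rw [mem_union]; rcases hq with h | rfl <;> tauto
  · obtain ⟨q, hq, hq'⟩ := h6 p hp
    refine ⟨q, ?_, hq'⟩
    rw [mem_union]; rcases hq with h | rfl <;> tauto

omit [Fintype V] in
theorem lnk_walk {x : ℕ → V} {t : ℕ} (hx : ∀ i < t, E α β (x i) (x (i + 1))) {i : ℕ} (k : ℕ)
    (h : i + k ≤ t) : Lnk α β k (x i) (x (i + k)) := by
  induction k with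
  | zero => exact Lnk.refl _
  | succ k ih => exact (ih (by omega)).trans (Lnk.single (hx _ (by omega)))

theorem walk_inj (hs : Simple α β) {x : ℕ → V} {t : ℕ} (hx : ∀ i < t, E α β (x i) (x (i + 1)))
    (hn : ¬ Short α β t) : ∀ i ≤ t, ∀ j ≤ t, x i = x j → i = j := by
  have key : ∀ i j, i < j → j ≤ t → x i ≠ x j := fun i j hij hj h => by
    obtain ⟨k, rfl⟩ : ∃ k, j = i + 1 + k := ⟨j - (i + 1), by omega⟩
    have h1 := hx i (by omega)
    refine hn ((Lnk.short hs (Lnk.single h1) (h ▸ lnk_walk hx k hj) (hs.ne h1).symm).mono ?_)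
    omega
  intro i hi j hj h
  rcases lt_trichotomy i j with h' | h' | h'
  exacts [absurd h (key i j h' hj), h', absurd h.symm (key j i h' hi)]

/-- The local use of Voorhoeve's bound. -/
theorem short_of_small (hs : Simple α β) (Z : Finset V) {δ : ℕ} (hδ : out α β Z ≤ δ)
    (h : 8 * δ < Z.card) : Short α β Z.card := by
  let A : V → V → ℕ := fun v w =>
    (if w = v then 1 else 0) + (if w = α v then 1 else 0) + if w = β v then 1 else 0
  have hnum : 8 ^ δ * 3 ^ Z.card < 4 ^ Z.card := by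
    obtain ⟨k, hk⟩ := Nat.exists_eq_add_of_lt h
    rw [hk, pow_succ, pow_succ, pow_add, pow_add, pow_mul, pow_mul, ← mul_assoc, ← mul_assoc,
      ← mul_pow]
    have h1 : (8 * 3 ^ 8) ^ δ ≤ (4 ^ 8) ^ δ := Nat.pow_le_pow_left (by norm_num) _
    have h2 : 3 ^ k ≤ 4 ^ k := Nat.pow_le_pow_left (by norm_num) _
    have h3 := Nat.mul_le_mul h1 h2
    have h4 : 0 < (4 ^ 8) ^ δ * 4 ^ k := by positivity
    omega
  have col : ∀ (a : Equiv.Perm V) w, ∑ v, (if w = a v then 1 else 0) = 1 := fun a w => by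
    exact (Equiv.sum_comp a fun v => if w = v then 1 else 0).trans (by simp)
  obtain ⟨e1, e2, s1, s2, hne, hag⟩ := local_pair hnum _ V V A (· ∈ Z)
    (fun c => c ∉ Z ∧ α⁻¹ c ∉ Z ∧ β⁻¹ c ∉ Z) rfl ⟨⟨fun v => by simp [A, sum_add_distrib],
      fun w => by simp only [A, sum_add_distrib, col]; simp⟩, by simp, fun v w _ => by
      obtain ⟨a1, a2, a3⟩ := hs v
      simp only [A]
      split_ifs <;> simp_all, fun v w hv hw => by
      simp only [A]
      rw [if_neg, if_neg, if_neg] <;> rintro rfl <;> simp_all, by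
      refine (Finset.card_le_card (t := Z ∪ ((Z.filter fun v => α v ∉ Z).image α ∪
        (Z.filter fun v => β v ∉ Z).image β)) fun c hc => ?_).trans ?_
      · simp only [mem_filter, mem_univ, true_and, mem_union, mem_image] at hc ⊢
        by_cases h1 : c ∈ Z
        · exact Or.inl h1
        · by_cases h2 : α⁻¹ c ∈ Z
          · exact Or.inr (Or.inl ⟨α⁻¹ c, ⟨h2, by simpa using h1⟩, by simp⟩)
          · exact Or.inr (Or.inr ⟨β⁻¹ c, ⟨by tauto, by simpa using h1⟩, by simp⟩)
      · refine (card_union_le _ _).trans (Nat.add_le_add_left ((card_union_le _ _).trans ?_) _)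
        exact (Nat.add_le_add card_image_le card_image_le).trans hδ⟩
  have pm : ∀ e : V ≃ V, Sup A e → PM α β e := fun e he => ⟨e.injective, fun v => by
    have := he v
    by_contra hc
    simp only [E, not_or] at hc
    simp [A, hc.1, hc.2.1, hc.2.2] at this⟩
  refine ⟨e1, e2, pm _ s1, pm _ s2, fun h => hne (Equiv.coe_fn_injective h),
    Finset.card_le_card fun v hv => ?_⟩
  by_contra hv'
  simp [hag v hv'] at hv

end Pool.Agent.P.MP_cb63a5_lc.Cub
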