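import Mathlib

/-! Voorhoeve's lower bound for the permanent of a matrix of naturals with line sums three. -/

namespace Pool.Agent.P.MP_cb63a5_lc.Cub

open Finset

variable {ρ γ γ' : Type} [Fintype ρ] [Fintype γ] [Fintype γ'] [DecidableEq ρ] [DecidableEq γ]
  [DecidableEq γ']

/-- The permanent of a matrix with rows `ρ` and columns `γ`. -/
def per (A : ρ → γ → ℕ) : ℕ := ∑ e : ρ ≃ γ, ∏ r, A r (e r)

theorem per_tr (A : ρ → γ → ℕ) : per (fun c r => A r c) = per A := by
  unfold per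
  refine Fintype.sum_equiv ⟨Equiv.symm, Equiv.symm, fun _ => rfl, fun _ => rfl⟩ _ _ fun e => ?_
  simpa using (Equiv.prod_comp e fun r => A r (e.symm r))

theorem per_cols (A : ρ → γ → ℕ) (σ : γ' ≃ γ) : per (fun r c => A r (σ c)) = per A := by
  unfold per
  exact Fintype.sum_equiv ⟨fun e => e.trans σ, fun e => e.trans σ.symm, fun e => by ext; simp,
    fun e => by ext; simp⟩ _ _ fun e => rfl

/-- Extension of a bijection by one more pair. -/
def ext (r0 : ρ) (c0 : γ) (e : {r // r ≠ r0} ≃ {c // c ≠ c0}) : ρ ≃ γ :=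
  (Equiv.optionSubtypeNe r0).symm.trans (e.optionCongr.trans (Equiv.optionSubtypeNe c0))

omit [Fintype ρ] [Fintype γ] in
theorem ext_self (r0 : ρ) (c0 : γ) (e : {r // r ≠ r0} ≃ {c // c ≠ c0}) : ext r0 c0 e r0 = c0 := by
  simp [ext]

omit [Fintype ρ] [Fintype γ] in
theorem ext_ne {r0 : ρ} (c0 : γ) (e : {r // r ≠ r0} ≃ {c // c ≠ c0}) {r : ρ} (h : r ≠ r0) :
    ext r0 c0 e r = e ⟨r, h⟩ := by
  simp [ext, Equiv.optionSubtypeNe_symm_of_ne h]

/-- The matrix without one row and one column. -/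
def minor (A : ρ → γ → ℕ) (r0 : ρ) (c0 : γ) : {r // r ≠ r0} → {c // c ≠ c0} → ℕ :=
  fun r c => A r c

theorem expand (A : ρ → γ → ℕ) (r0 : ρ) : per A = ∑ c, A r0 c * per (minor A r0 c) := by
  unfold per
  rw [← Finset.sum_fiberwise univ (fun e : ρ ≃ γ => e r0)]
  refine Finset.sum_congr rfl fun c _ => ?_
  rw [Finset.mul_sum]
  symm
  refine Finset.sum_bij (fun e _ => ext r0 c e) (fun e _ => by simp [ext_self]) ?_ ?_ ?_
  · intro e _ e' _ h
    ext r
    rw [← ext_ne c e r.2, ← ext_ne c e' r.2, h]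
  · intro e he
    have he' : e r0 = c := by simpa using he
    refine ⟨e.subtypeEquiv fun r => by rw [← he']; simp, mem_univ _, ?_⟩
    ext r
    by_cases h : r = r0
    · rw [h, ext_self, he']
    · rw [ext_ne _ _ h]; rfl
  · intro e _
    rw [Fintype.prod_eq_mul_prod_subtype_ne _ r0, ext_self]
    congr 1
    exact Finset.prod_congr rfl fun r _ => by rw [ext_ne _ _ r.2]; rfl

/-- One unit removed from an entry. -/
def del (A : ρ → γ → ℕ) (r0 : ρ) (c0 : γ) : ρ → γ → ℕ :=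
  fun r c => if r = r0 ∧ c = c0 then A r c - 1 else A r c

theorem per_del (A : ρ → γ → ℕ) (r0 : ρ) (c0 : γ) (h : 0 < A r0 c0) :
    per (del A r0 c0) + per (minor A r0 c0) = per A := by
  have hm : ∀ c, minor (del A r0 c0) r0 c = minor A r0 c := fun c => by
    funext r c'; simp [minor, del, r.2]
  rw [expand A r0, expand (del A r0 c0) r0]
  simp only [hm]
  rw [Fintype.sum_eq_add_sum_subtype_ne _ c0, Fintype.sum_eq_add_sum_subtype_ne _ c0 (α := γ)]
  have : ∑ c : {c // c ≠ c0}, del A r0 c0 r0 c * per (minor A r0 c) =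
      ∑ c : {c // c ≠ c0}, A r0 c * per (minor A r0 c) :=
    Finset.sum_congr rfl fun c _ => by simp [del, c.2]
  rw [this]
  obtain ⟨k, hk⟩ : ∃ k, A r0 c0 = k + 1 := ⟨_, (Nat.succ_pred_eq_of_pos h).symm⟩
  simp only [del, hk, and_self, if_true, Nat.add_sub_cancel]
  ring

theorem del_bound (A : ρ → γ → ℕ) (r0 : ρ) {s x y : ℕ} (hs : ∑ c, A r0 c = s + 1)
    (h : ∀ c, 0 < A r0 c → x ≤ y * per (del A r0 c)) : (s + 1) * x ≤ s * (y * per A) := by
  have h1 : ∑ c, A r0 c * per (del A r0 c) + per A = (s + 1) * per A := by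
    conv_lhs => rw [expand A r0]
    rw [← Finset.sum_add_distrib, ← hs, Finset.sum_mul]
    refine Finset.sum_congr rfl fun c _ => ?_
    rcases Nat.eq_zero_or_pos (A r0 c) with h0 | h0
    · simp [h0]
    · rw [← mul_add, per_del A r0 c h0]
  have h2 : (s + 1) * x ≤ y * ∑ c, A r0 c * per (del A r0 c) := by
    rw [← hs, Finset.sum_mul, Finset.mul_sum]
    refine Finset.sum_le_sum fun c _ => ?_
    rcases Nat.eq_zero_or_pos (A r0 c) with h0 | h0
    · simp [h0]
    · have := Nat.mul_le_mul_left (A r0 c) (h c h0)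
      linarith [mul_left_comm (A r0 c) y (per (del A r0 c))]
  have h3 : ∑ c, A r0 c * per (del A r0 c) = s * per A := by linarith
  rw [h3] at h2
  linarith [mul_left_comm y s (per A)]

theorem per_add_row (B B1 B2 : ρ → γ → ℕ) (r0 : ρ) (h1 : ∀ r ≠ r0, B1 r = B r)
    (h2 : ∀ r ≠ r0, B2 r = B r) (h : ∀ c, B r0 c = B1 r0 c + B2 r0 c) :
    per B = per B1 + per B2 := by
  rw [expand B r0, expand B1 r0, expand B2 r0, ← Finset.sum_add_distrib]
  refine Finset.sum_congr rfl fun c _ => ?_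
  have e1 : minor B1 r0 c = minor B r0 c := by funext r c'; simp [minor, h1 r r.2]
  have e2 : minor B2 r0 c = minor B r0 c := by funext r c'; simp [minor, h2 r r.2]
  rw [e1, e2, h, add_mul]

/-- Row `r0` deleted and column `c2` added to column `c1`. -/
def merge (A : ρ → γ → ℕ) (r0 : ρ) (c1 c2 : γ) : {r // r ≠ r0} → {c // c ≠ c2} → ℕ :=
  fun r c => A r c + if c.1 = c1 then A r c2 else 0

theorem per_merge (A : ρ → γ → ℕ) (r0 : ρ) {c1 c2 : γ} (h : c1 ≠ c2) :
    per (merge A r0 c1 c2) = per (minor A r0 c2) + per (minor A r0 c1) := by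
  let σ : {c // c ≠ c2} ≃ {c // c ≠ c1} := (Equiv.swap c1 c2).subtypeEquiv fun c => by
    rw [not_iff_not, Equiv.swap_apply_eq_iff, Equiv.swap_apply_left]
  rw [← per_cols (minor A r0 c1) σ, ← per_tr (merge A r0 c1 c2), ← per_tr (minor A r0 c2),
    ← per_tr fun r c => minor A r0 c1 r (σ c)]
  refine per_add_row _ _ _ ⟨c1, h⟩ (fun c hc => ?_) (fun c hc => ?_) fun r => ?_
  · have : c.1 ≠ c1 := fun h' => hc (Subtype.ext h')
    funext r; simp [minor, merge, this]
  · have : c.1 ≠ c1 := fun h' => hc (Subtype.ext h')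
    funext r; simp [minor, merge, this, σ, Equiv.swap_apply_of_ne_of_ne this c.2]
  · simp [minor, merge, σ]

/-- All line sums are three. -/
def Reg (A : ρ → γ → ℕ) : Prop := (∀ r, ∑ c, A r c = 3) ∧ ∀ c, ∑ r, A r c = 3

/-- All line sums are three, except one row and one column of sum two. -/
def Dfc (A : ρ → γ → ℕ) (r0 : ρ) (c0 : γ) : Prop :=
  (∀ r, ∑ c, A r c = if r = r0 then 2 else 3) ∧ ∀ c, ∑ r, A r c = if c = c0 then 2 else 3

theorem sum_del_row (A : ρ → γ → ℕ) {r0 : ρ} {c0 : γ} (h : 0 < A r0 c0) (r : ρ) :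
    ∑ c, del A r0 c0 r c + (if r = r0 then 1 else 0) = ∑ c, A r c := by
  rw [Fintype.sum_eq_add_sum_subtype_ne _ c0, Fintype.sum_eq_add_sum_subtype_ne _ c0 (α := γ)]
  have : ∑ c : {c // c ≠ c0}, del A r0 c0 r c = ∑ c : {c // c ≠ c0}, A r c :=
    Finset.sum_congr rfl fun c _ => by simp [del, c.2]
  rw [this]
  by_cases hr : r = r0
  · subst hr; simp only [del, and_self, if_true]; omega
  · simp [del, hr]

theorem sum_del_col (A : ρ → γ → ℕ) {r0 : ρ} {c0 : γ} (h : 0 < A r0 c0) (c : γ) :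
    ∑ r, del A r0 c0 r c + (if c = c0 then 1 else 0) = ∑ r, A r c := by
  have := sum_del_row (fun c r => A r c) (r0 := c0) (c0 := r0) h c
  simpa only [del, and_comm] using this

theorem card_ne {α : Type} [Fintype α] [DecidableEq α] (a : α) {n : ℕ}
    (h : Fintype.card α = n + 1) : Fintype.card {b // b ≠ a} = n := by
  simp [h]

theorem two_cases {α : Type} [Fintype α] [DecidableEq α] (f : α → ℕ) (h : ∑ a, f a = 2) :
    (∃ a, f a = 2 ∧ ∀ b ≠ a, f b = 0) ∨
      ∃ a b, a ≠ b ∧ f a = 1 ∧ f b = 1 ∧ ∀ c, c ≠ a → c ≠ b → f c = 0 := by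
  obtain ⟨a, -, ha⟩ := Finset.exists_ne_zero_of_sum_ne_zero (s := univ) (f := f) (by omega)
  rw [Fintype.sum_eq_add_sum_subtype_ne _ a] at h
  by_cases h2 : f a = 2
  · refine Or.inl ⟨a, h2, fun b hb => ?_⟩
    have : ∑ c : {c // c ≠ a}, f c = 0 := by omega
    exact (Finset.sum_eq_zero_iff.1 this) ⟨b, hb⟩ (mem_univ _)
  · have h1 : ∑ c : {c // c ≠ a}, f c = 1 := by omega
    obtain ⟨b, -, hb⟩ := Finset.exists_ne_zero_of_sum_ne_zero (s := univ)
      (f := fun c : {c // c ≠ a} => f c) (by omega)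
    rw [Fintype.sum_eq_add_sum_subtype_ne _ b] at h1
    refine Or.inr ⟨a, b, b.2.symm, by omega, by omega, fun c hc hc' => ?_⟩
    have : ∑ c : {c : {c // c ≠ a} // c ≠ b}, f c = 0 := by omega
    exact (Finset.sum_eq_zero_iff.1 this) ⟨⟨c, hc⟩, fun h' => hc' (congrArg Subtype.val h')⟩
      (mem_univ _)

theorem one_case {α : Type} [Fintype α] [DecidableEq α] (f : α → ℕ) (h : ∑ a, f a = 1) :
    ∃ a, ∀ b, f b = if b = a then 1 else 0 := by
  obtain ⟨a, -, ha⟩ := Finset.exists_ne_zero_of_sum_ne_zero (s := univ) (f := f) (by omega)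
  rw [Fintype.sum_eq_add_sum_subtype_ne _ a] at h
  refine ⟨a, fun b => ?_⟩
  split_ifs with hb
  · subst hb; omega
  · have : ∑ c : {c // c ≠ a}, f c = 0 := by omega
    exact (Finset.sum_eq_zero_iff.1 this) ⟨b, hb⟩ (mem_univ _)

theorem reg_of_dfc {m : ℕ} (h : ∀ (A : ρ → γ → ℕ) r0 c0, Dfc A r0 c0 → 4 ^ m ≤ 3 ^ m * per A)
    (r0 : ρ) (A : ρ → γ → ℕ) (hA : Reg A) : 4 ^ (m + 1) ≤ 3 ^ (m + 1) * per A := by
  have := del_bound A r0 (s := 2) (x := 4 ^ m) (y := 3 ^ m) (hA.1 r0) fun c hc =>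
    h _ r0 c ⟨fun r => by
      have := sum_del_row A hc r
      rw [hA.1] at this
      split_ifs at this ⊢ <;> omega, fun c' => by
      have := sum_del_col A hc c'
      rw [hA.2] at this
      split_ifs at this ⊢ <;> omega⟩
  rw [pow_succ, pow_succ, mul_right_comm]
  omega

theorem reg_zero (h1 : Fintype.card ρ = 0) (h2 : Fintype.card γ = 0) (A : ρ → γ → ℕ) :
    per A = 1 := by
  have := Fintype.card_eq_zero_iff.1 h1
  have := Fintype.card_eq_zero_iff.1 h2
  have : Unique (ρ ≃ γ) := ⟨⟨Equiv.equivOfIsEmpty ρ γ⟩, fun e => by ext r; exact isEmptyElim r⟩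
  simp [per]

theorem dfc_step {m : ℕ}
    (hR : ∀ (ρ γ : Type) [Fintype ρ] [Fintype γ] [DecidableEq ρ] [DecidableEq γ],
      Fintype.card ρ = m → Fintype.card γ = m → ∀ A : ρ → γ → ℕ, Reg A → 4 ^ m ≤ 3 ^ m * per A)
    (hD : ∀ (ρ γ : Type) [Fintype ρ] [Fintype γ] [DecidableEq ρ] [DecidableEq γ],
      Fintype.card ρ = m → Fintype.card γ = m → ∀ (A : ρ → γ → ℕ) r0 c0, Dfc A r0 c0 →
        4 ^ m ≤ 2 * (3 ^ m * per A) ∧ ∀ k, m = k + 1 → 4 ^ k ≤ 3 ^ k * per A)
    (h1 : Fintype.card ρ = m + 1) (h2 : Fintype.card γ = m + 1) (A : ρ → γ → ℕ) (r0 : ρ) (c0 : γ)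
    (hA : Dfc A r0 c0) : 4 ^ m ≤ 3 ^ m * per A := by
  have hrow : ∀ (r : {r // r ≠ r0}) (c1 : γ),
      A r c1 + ∑ c : {c // c ≠ c1}, A r c = 3 := fun r c1 => by
    have := hA.1 r
    rwa [Fintype.sum_eq_add_sum_subtype_ne _ c1, if_neg r.2] at this
  have hcol : ∀ c, A r0 c + ∑ r : {r // r ≠ r0}, A r c = if c = c0 then 2 else 3 := fun c => by
    have := hA.2 c
    rwa [Fintype.sum_eq_add_sum_subtype_ne _ r0] at this
  have main : ∀ c1 c2, c1 ≠ c2 → c2 ≠ c0 → A r0 c1 = 1 → A r0 c2 = 1 →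
      (∀ c, c ≠ c1 → c ≠ c2 → A r0 c = 0) → 4 ^ m ≤ 3 ^ m * per A := by
    intro c1 c2 h12 h20 e1 e2 e0
    have hp : per A = per (merge A r0 c1 c2) := by
      rw [per_merge A r0 h12, expand A r0, Fintype.sum_eq_add_sum_subtype_ne _ c2, e2,
        Finset.sum_eq_single (⟨c1, h12⟩ : {c // c ≠ c2})]
      · simp [e1]
      · intro c _ hc
        rw [e0 c (fun h => hc (Subtype.ext h)) c.2, zero_mul]
      · simp
    have hBr : ∀ r, ∑ c, merge A r0 c1 c2 r c = 3 := fun r => by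
      have := hrow r c2
      simp only [merge, Finset.sum_add_distrib]
      rw [Finset.sum_eq_single (⟨c1, h12⟩ : {c // c ≠ c2})
        (f := fun c : {c // c ≠ c2} => if c.1 = c1 then A r c2 else 0)]
      · simp only [if_true]; omega
      · intro c _ hc
        exact if_neg fun h => hc (Subtype.ext h)
      · simp
    have hBc : ∀ c : {c // c ≠ c2}, ∑ r, merge A r0 c1 c2 r c =
        (if c.1 = c0 then 2 else 3) + if c.1 = c1 then 1 else 0 := fun c => by
      have a1 := hcol c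
      have a2 := hcol c2
      rw [if_neg h20, e2] at a2
      simp only [merge, Finset.sum_add_distrib]
      by_cases hc : c.1 = c1
      · simp only [hc, if_true] at a1 ⊢
        rw [e1] at a1
        omega
      · simp only [hc, if_false, Finset.sum_const_zero]
        rw [e0 c hc c.2] at a1
        omega
    rw [hp]
    by_cases h10 : c1 = c0
    · refine hR _ _ (card_ne r0 h1) (card_ne c2 h2) _ ⟨hBr, fun c => ?_⟩
      rw [hBc, h10]
      split_ifs <;> rfl
    · have hm : ∃ k, m = k + 1 := by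
        have : Nonempty {c // c ≠ c2} := ⟨⟨c1, h12⟩⟩
        have := Fintype.card_pos (α := {c // c ≠ c2})
        rw [card_ne c2 h2] at this
        exact ⟨m - 1, by omega⟩
      obtain ⟨k, hk⟩ := hm
      have := del_bound (fun c r => merge A r0 c1 c2 r c) ⟨c1, h12⟩ (s := 3) (x := 4 ^ k)
        (y := 3 ^ k) (by rw [hBc]; simp [h10]) fun r hr =>
        (hD _ _ (card_ne c2 h2) (card_ne r0 h1) _ ⟨c0, h20.symm⟩ r ⟨fun c => by
          have := sum_del_row (fun c r => merge A r0 c1 c2 r c) hr c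
          rw [hBc] at this
          simp only [Subtype.ext_iff] at this ⊢
          omega, fun r' => by
          have := sum_del_col (fun c r => merge A r0 c1 c2 r c) hr r'
          rw [hBr] at this
          split_ifs at this ⊢ <;> omega⟩).2 k hk
      rw [per_tr] at this
      rw [hk, pow_succ, pow_succ, mul_right_comm]
      omega
  rcases two_cases (A r0) (by simpa using hA.1 r0) with ⟨c1, e1, e0⟩ | ⟨c1, c2, h12, e1, e2, e0⟩
  · have hp : per A = 2 * per (minor A r0 c1) := by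
      rw [expand A r0, Finset.sum_eq_single c1, e1]
      · intro c _ hc
        rw [e0 c hc, zero_mul]
      · simp
    have hMc : ∀ c : {c // c ≠ c1}, ∑ r, minor A r0 c1 r c = if c.1 = c0 then 2 else 3 :=
      fun c => by
        have := hcol c
        rwa [e0 c c.2, zero_add] at this
    have a1 := hcol c1
    rw [e1] at a1
    rw [hp]
    by_cases h10 : c1 = c0
    · rw [if_pos h10] at a1
      have := hR _ _ (card_ne r0 h1) (card_ne c1 h2) (minor A r0 c1) ⟨fun r => by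
        have a2 := hrow r c1
        have : A r c1 = 0 :=
          (Finset.sum_eq_zero_iff.1 (show ∑ r : {r // r ≠ r0}, A r c1 = 0 by omega)) r (mem_univ _)
        simp only [minor]; omega, fun c => by rw [hMc, if_neg (h10 ▸ c.2)]⟩
      rw [mul_left_comm]
      omega
    · rw [if_neg h10] at a1
      obtain ⟨r1, hr1⟩ := one_case (fun r : {r // r ≠ r0} => A r c1) (by omega)
      have := (hD _ _ (card_ne r0 h1) (card_ne c1 h2) (minor A r0 c1) r1 ⟨c0, Ne.symm h10⟩
        ⟨fun r => by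
          have a2 := hrow r c1
          rw [hr1] at a2
          simp only [minor]
          split_ifs at a2 ⊢ <;> omega, fun c => by
          rw [hMc]; simp only [Subtype.ext_iff]⟩).1
      rw [mul_left_comm]
      exact this
  · by_cases h20 : c2 = c0
    · exact main c2 c1 h12.symm (h20 ▸ h12) e2 e1 fun c a b => e0 c b a
    · exact main c1 c2 h12 h20 e1 e2 e0

theorem voor_aux (m : ℕ) :
    (∀ (ρ γ : Type) [Fintype ρ] [Fintype γ] [DecidableEq ρ] [DecidableEq γ],
      Fintype.card ρ = m → Fintype.card γ = m → ∀ A : ρ → γ → ℕ, Reg A → 4 ^ m ≤ 3 ^ m * per A) ∧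
    (∀ (ρ γ : Type) [Fintype ρ] [Fintype γ] [DecidableEq ρ] [DecidableEq γ],
      Fintype.card ρ = m → Fintype.card γ = m → ∀ (A : ρ → γ → ℕ) r0 c0, Dfc A r0 c0 →
        4 ^ m ≤ 2 * (3 ^ m * per A) ∧ ∀ k, m = k + 1 → 4 ^ k ≤ 3 ^ k * per A) := by
  induction m with
  | zero =>
    refine ⟨fun ρ γ _ _ _ _ h1 h2 A _ => by simp [reg_zero h1 h2], fun ρ γ _ _ _ _ h1 _ A r0 => ?_⟩
    exact (Fintype.card_eq_zero_iff.1 h1).elim r0
  | succ m ih =>
    refine ⟨fun ρ γ _ _ _ _ h1 h2 A hA => ?_, fun ρ γ _ _ _ _ h1 h2 A r0 c0 hA => ?_⟩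
    · obtain ⟨r0⟩ : Nonempty ρ := Fintype.card_pos_iff.1 (by omega)
      exact reg_of_dfc (fun B r c hB => dfc_step ih.1 ih.2 h1 h2 B r c hB) r0 A hA
    · have := dfc_step ih.1 ih.2 h1 h2 A r0 c0 hA
      refine ⟨?_, fun k hk => by rwa [← Nat.succ.inj hk]⟩
      rw [pow_succ, pow_succ, mul_right_comm]
      omega

omit [DecidableEq ρ] [DecidableEq γ] in
theorem Reg.card_eq {A : ρ → γ → ℕ} (hA : Reg A) : Fintype.card γ = Fintype.card ρ := by
  have := Finset.sum_comm (s := univ) (t := univ) (f := A)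
  simp only [hA.1, hA.2, sum_const, card_univ, smul_eq_mul] at this
  omega

/-- Voorhoeve's bound. -/
theorem voorhoeve {A : ρ → γ → ℕ} (hA : Reg A) :
    4 ^ Fintype.card ρ ≤ 3 ^ Fintype.card ρ * per A :=
  (voor_aux _).1 ρ γ rfl hA.card_eq A hA

end Pool.Agent.P.MP_cb63a5_lc.Cub
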